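import Mathlib

set_option autoImplicit false

/-!
Short words: cosets of subgroups of finite index and balanced commutator trees
(project BC, MP_98e9ed_al).
-/

namespace Pool.Agent.Helper39.BC

open Pointwise

variable {H : Type*} [Group H]

theorem pow_mono' {X : Set H} (h1 : (1 : H) ∈ X) {m n : ℕ} (h : m ≤ n) : X ^ m ⊆ X ^ n :=
  Set.pow_subset_pow_right h1 h

theorem inv_mem_pow {X : Set H} (hinv : ∀ x ∈ X, x⁻¹ ∈ X) (n : ℕ) {x : H} (hx : x ∈ X ^ n) :
    x⁻¹ ∈ X ^ n := by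
  induction n generalizing x with
  | zero =>
    rw [pow_zero, Set.mem_one] at hx ⊢
    rw [hx, inv_one]
  | succ n ih =>
    rw [pow_succ, Set.mem_mul] at hx
    obtain ⟨a, ha, b, hb, rfl⟩ := hx
    rw [pow_succ', Set.mem_mul]
    exact ⟨b⁻¹, hinv b hb, a⁻¹, ih ha, by rw [mul_inv_rev]⟩

theorem mul_mem_pow {X : Set H} {m n : ℕ} {x y : H} (hx : x ∈ X ^ m) (hy : y ∈ X ^ n) :
    x * y ∈ X ^ (m + n) := by
  rw [pow_add]
  exact Set.mul_mem_mul hx hy

/-- every left coset of a subgroup of finite index `n` is reached by a word of length `n`. -/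
theorem exists_short (X : Set H) (h1 : (1 : H) ∈ X) (hinv : ∀ x ∈ X, x⁻¹ ∈ X)
    (hX : Subgroup.closure X = ⊤) (D : Subgroup H) (hD : D.index ≠ 0) (g : H) :
    ∃ x ∈ X ^ D.index, x⁻¹ * g ∈ D := by
  classical
  have hfin : Finite (H ⧸ D) := by
    have : D.FiniteIndex := ⟨hD⟩
    infer_instance
  let A : ℕ → Set (H ⧸ D) := fun i => (fun x : H => (QuotientGroup.mk x : H ⧸ D)) '' (X ^ i)
  have hmono : ∀ i, A i ⊆ A (i + 1) := fun i =>
    Set.image_mono (pow_mono' h1 (Nat.le_succ i))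
  have hstep : ∀ i x, x ∈ X → ∀ q ∈ A i, x • q ∈ A (i + 1) := by
    rintro i x hx _ ⟨y, hy, rfl⟩
    refine ⟨x * y, ?_, rfl⟩
    rw [pow_succ']
    exact Set.mul_mem_mul hx hy
  have hclosed : ∀ i, A (i + 1) = A i → A i = Set.univ := by
    intro i hi
    have h2 : ∀ g : H, ∀ q ∈ A i, g • q ∈ A i := by
      intro g
      have hg : g ∈ Subgroup.closure X := by rw [hX]; trivial
      induction hg using Subgroup.closure_induction with
      | mem x hx => exact fun q hq => hi ▸ hstep i x hx q hq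
      | one => exact fun q hq => by rwa [one_smul]
      | mul x y _ _ hx hy => exact fun q hq => by rw [mul_smul]; exact hx _ (hy _ hq)
      | inv x _ hx =>
        intro q hq
        have himg : (fun q => x • q) '' A i = A i := by
          refine Set.eq_of_subset_of_ncard_le (Set.image_subset_iff.2 fun q hq => hx q hq) ?_
            (Set.toFinite _)
          rw [Set.ncard_image_of_injective _ (MulAction.injective x)]
        obtain ⟨p, hp, hpq⟩ : q ∈ (fun q => x • q) '' A i := by rw [himg]; exact hq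
        have : x⁻¹ • q = p := by rw [← hpq]; simp
        rw [this]
        exact hp
    rw [Set.eq_univ_iff_forall]
    intro q
    induction q using QuotientGroup.induction_on with
    | H z =>
      have h3 : ((1 : H) : H ⧸ D) ∈ A i := ⟨1, Set.one_mem_pow h1, rfl⟩
      have h4 := h2 z _ h3
      rwa [MulAction.Quotient.smul_coe, smul_eq_mul, mul_one] at h4
  have hcard : ∀ i, A i = Set.univ ∨ i + 1 ≤ (A i).ncard := by
    intro i
    induction i with
    | zero =>
      right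
      have : A 0 = {((1 : H) : H ⧸ D)} := by simp [A]
      rw [this, Set.ncard_singleton]
    | succ i ih =>
      rcases ih with h | h
      · left
        rw [← Set.univ_subset_iff, ← h]
        exact hmono i
      · by_cases h5 : A (i + 1) = A i
        · left
          rw [h5]
          exact hclosed i h5
        · right
          have h6 : A i ⊂ A (i + 1) := (hmono i).ssubset_of_ne fun h => h5 h.symm
          have h7 := Set.ncard_lt_ncard h6 (Set.toFinite _)
          omega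
  have huniv : A D.index = Set.univ := by
    rcases hcard D.index with h | h
    · exact h
    · exfalso
      have h8 : (A D.index).ncard ≤ D.index := by
        rw [Subgroup.index, ← Set.ncard_univ]
        exact Set.ncard_le_ncard (Set.subset_univ _) (Set.toFinite _)
      omega
  have h9 : (g : H ⧸ D) ∈ A D.index := by rw [huniv]; trivial
  obtain ⟨x, hx, hxg⟩ := h9
  exact ⟨x, hx, QuotientGroup.eq.1 hxg⟩

theorem exists_short' (X : Set H) (h1 : (1 : H) ∈ X) (hinv : ∀ x ∈ X, x⁻¹ ∈ X)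
    (hX : Subgroup.closure X = ⊤) (D : Subgroup H) (hD : D.index ≠ 0) (n : ℕ) (hn : D.index ≤ n)
    (g : H) : ∃ x ∈ X ^ n, x⁻¹ * g ∈ D := by
  obtain ⟨x, hx, h⟩ := exists_short X h1 hinv hX D hD g
  exact ⟨x, pow_mono' h1 hn hx, h⟩

section tree

variable {ι : Type*} [DecidableEq ι] (C : ι → Subgroup H)

theorem tree_aux (X : Set H) (h1 : (1 : H) ∈ X) (hinv : ∀ x ∈ X, x⁻¹ ∈ X)
    (hX : Subgroup.closure X = ⊤) (hn : ∀ v, (C v).Normal) (B : ℕ)
    (hB : ∀ v, (C v).index ≠ 0 ∧ (C v).index ≤ B) (hne : ∀ v, ∃ x, x ∉ C v)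
    (hc : ∀ v a b, a ∉ C v → b ∉ C v → ∃ g, a * (g * b * g⁻¹) * a⁻¹ * (g * b * g⁻¹)⁻¹ ∉ C v)
    (hp : ∀ v v', v ≠ v' → ∃ x ∈ C v', x ∉ C v) (d : ℕ) (v : ι) :
    ∀ J : Finset ι, J.card ≤ 2 ^ d → v ∉ J →
      ∃ L, L + 2 * B ≤ 4 ^ d * (B ^ 2 + 2 * B) ∧ ∃ y ∈ X ^ L, y ∉ C v ∧ ∀ v' ∈ J, y ∈ C v' := by
  have hB1 : 1 ≤ B := by
    have := hB v
    omega
  induction d with
  | zero =>
    intro J hJ hv
    rw [pow_zero, one_mul]
    refine ⟨B ^ 2, le_rfl, ?_⟩
    have : Nonempty ι := ⟨v⟩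
    rw [pow_zero, Finset.card_le_one_iff_subset_singleton] at hJ
    obtain ⟨w, hw⟩ := hJ
    rcases Finset.subset_singleton_iff.1 hw with rfl | rfl
    · obtain ⟨x, hx⟩ := hne v
      obtain ⟨y, hy, hyx⟩ := exists_short' X h1 hinv hX (C v) (hB v).1 (B ^ 2)
        ((hB v).2.trans (by nlinarith)) x
      refine ⟨y, hy, fun h => hx ?_, fun v' hv' => absurd hv' (Finset.notMem_empty _)⟩
      have : x = y * (y⁻¹ * x) := by group
      rw [this]
      exact (C v).mul_mem h hyx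
    · have hvw : v ≠ w := fun h => hv (by rw [h]; exact Finset.mem_singleton_self _)
      obtain ⟨x, hxw, hxv⟩ := hp v w hvw
      have hidx : (C v ⊓ C w).index ≤ B ^ 2 := by
        refine (Subgroup.index_inf_le).trans ?_
        rw [sq]
        exact Nat.mul_le_mul (hB v).2 (hB w).2
      have hidx0 : (C v ⊓ C w).index ≠ 0 := Subgroup.index_inf_ne_zero (hB v).1 (hB w).1
      obtain ⟨y, hy, hyx⟩ := exists_short' X h1 hinv hX (C v ⊓ C w) hidx0 (B ^ 2) hidx x
      refine ⟨y, hy, fun h => hxv ?_, fun v' hv' => ?_⟩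
      · have : x = y * (y⁻¹ * x) := by group
        rw [this]
        exact (C v).mul_mem h hyx.1
      · rw [Finset.mem_singleton.1 hv']
        have : y = x * (y⁻¹ * x)⁻¹ := by group
        rw [this]
        exact (C w).mul_mem hxw ((C w).inv_mem hyx.2)
  | succ d ih =>
    intro J hJ hv
    obtain ⟨J1, hJ1, hJ1c⟩ := Finset.exists_subset_card_eq (s := J) (n := min J.card (2 ^ d))
      (min_le_left _ _)
    obtain ⟨L, hL, a, ha, hav, haJ⟩ := ih J1 (by rw [hJ1c]; exact min_le_right _ _)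
      fun h => hv (hJ1 h)
    obtain ⟨L', hL', b, hb, hbv, hbJ⟩ := ih (J \ J1) (by
        rw [Finset.card_sdiff_of_subset hJ1, hJ1c]
        rw [pow_succ] at hJ
        omega)
      fun h => hv (Finset.mem_sdiff.1 h).1
    obtain ⟨g, hg⟩ := hc v a b hav hbv
    obtain ⟨y, hy, hyg⟩ := exists_short' X h1 hinv hX (C v) (hB v).1 B (hB v).2 g
    refine ⟨L + (B + L' + B) + L + (B + L' + B), ?_, a * (y * b * y⁻¹) * a⁻¹ * (y * b * y⁻¹)⁻¹,
      ?_, ?_, ?_⟩
    · rw [pow_succ]
      nlinarith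
    · have h2 : y * b * y⁻¹ ∈ X ^ (B + L' + B) :=
        mul_mem_pow (mul_mem_pow hy hb) (inv_mem_pow hinv _ hy)
      exact mul_mem_pow (mul_mem_pow (mul_mem_pow ha h2) (inv_mem_pow hinv _ ha))
        (inv_mem_pow hinv _ h2)
    · intro hcon
      apply hg
      have hnv := hn v
      have e : ((QuotientGroup.mk' (C v)) g) = (QuotientGroup.mk' (C v)) y := by
        rw [QuotientGroup.mk'_apply, QuotientGroup.mk'_apply]
        exact (QuotientGroup.eq.2 hyg).symm
      rw [← QuotientGroup.eq_one_iff, ← QuotientGroup.mk'_apply] at hcon ⊢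
      rw [← hcon]
      simp only [map_mul, map_inv, e]
    · intro v' hv'
      have hnv := hn v'
      by_cases h3 : v' ∈ J1
      · have h4 := haJ v' h3
        have e : a * (y * b * y⁻¹) * a⁻¹ * (y * b * y⁻¹)⁻¹ =
            a * ((y * b * y⁻¹) * a⁻¹ * (y * b * y⁻¹)⁻¹) := by group
        rw [e]
        exact (C v').mul_mem h4 (hnv.conj_mem _ ((C v').inv_mem h4) _)
      · have h4 := hbJ v' (Finset.mem_sdiff.2 ⟨hv', h3⟩)
        exact (C v').mul_mem (hnv.conj_mem _ (hnv.conj_mem _ h4 _) _)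
          ((C v').inv_mem (hnv.conj_mem _ h4 _))

/-- Balanced commutator tree. -/
theorem tree (X : Set H) (h1 : (1 : H) ∈ X) (hinv : ∀ x ∈ X, x⁻¹ ∈ X)
    (hX : Subgroup.closure X = ⊤) (hn : ∀ v, (C v).Normal) (B : ℕ)
    (hB : ∀ v, (C v).index ≠ 0 ∧ (C v).index ≤ B) (hne : ∀ v, ∃ x, x ∉ C v)
    (hc : ∀ v a b, a ∉ C v → b ∉ C v → ∃ g, a * (g * b * g⁻¹) * a⁻¹ * (g * b * g⁻¹)⁻¹ ∉ C v)
    (hp : ∀ v v', v ≠ v' → ∃ x ∈ C v', x ∉ C v) (d : ℕ) (v : ι)
    (J : Finset ι) (hJ : J.card ≤ 2 ^ d) (hv : v ∉ J) :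
    ∃ y ∈ X ^ (4 ^ d * (3 * B ^ 2)), y ∉ C v ∧ ∀ v' ∈ J, y ∈ C v' := by
  obtain ⟨L, hL, y, hy, h⟩ := tree_aux C X h1 hinv hX hn B hB hne hc hp d v J hJ hv
  refine ⟨y, pow_mono' h1 ?_ hy, h⟩
  have hB1 : 1 ≤ B := by
    have := hB v
    omega
  have h4 : 4 ^ d * (B ^ 2 + 2 * B) ≤ 4 ^ d * (3 * B ^ 2) :=
    Nat.mul_le_mul_left _ (by nlinarith)
  omega

end tree

end Pool.Agent.Helper39.BC
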