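import Pool.Agent.Helper39.BC.Onto
import Pool.Agent.Helper39.BC.Tree

set_option autoImplicit false

/-!
Diameters of the two kinds of layers (project BC, MP_98e9ed_al).
-/

namespace Pool.Agent.Helper39.BC

open Pointwise Subgroup

variable {H : Type*} [Group H]

/-- layers that are elementary abelian: `D` contains the commutators and the `p`-th powers. -/
theorem diam_p (X : Set H) (h1 : (1 : H) ∈ X) (hX : Subgroup.closure X = ⊤) (p n : ℕ)
    (hp : 1 ≤ p) (D : Subgroup H) (hcomm : ∀ a b : H, a * b * a⁻¹ * b⁻¹ ∈ D)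
    (hpow : ∀ a : H, a ^ p ∈ D) (h0 : D.index ≠ 0) (hidx : D.index ≤ 2 ^ n) (g : H) :
    ∃ x ∈ X ^ (p * n), x⁻¹ * g ∈ D := by
  induction n generalizing D g with
  | zero =>
    have h2 : D.index = 1 := by
      rw [pow_zero] at hidx
      omega
    rw [Subgroup.index_eq_one] at h2
    exact ⟨1, Set.one_mem_pow h1, by rw [h2]; trivial⟩
  | succ n ih =>
    by_cases hD : D = ⊤
    · exact ⟨1, Set.one_mem_pow h1, by rw [hD]; trivial⟩
    obtain ⟨x, hx, hxD⟩ : ∃ x ∈ X, x ∉ D := by
      by_contra hcon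
      push Not at hcon
      apply hD
      rw [eq_top_iff, ← hX, Subgroup.closure_le]
      exact hcon
    have hDn : D.Normal := ⟨fun d hd g => by
      have : g * d * g⁻¹ = (g * d * g⁻¹ * d⁻¹) * d := by group
      rw [this]
      exact D.mul_mem (hcomm g d) hd⟩
    set D' := D ⊔ Subgroup.zpowers x with hD'
    have hle : D ≤ D' := le_sup_left
    have hmul := Subgroup.relIndex_mul_index hle
    have hr0 : D.relIndex D' ≠ 0 := fun h => h0 (by rw [← hmul, h, zero_mul])
    have hr1 : D.relIndex D' ≠ 1 := fun h => by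
      rw [Subgroup.relIndex_eq_one] at h
      exact hxD (h (Subgroup.mem_sup_right (Subgroup.mem_zpowers x)))
    have h0' : D'.index ≠ 0 := fun h => h0 (by rw [← hmul, h, mul_zero])
    have hidx' : D'.index ≤ 2 ^ n := by
      rw [pow_succ] at hidx
      have h2 : 2 * D'.index ≤ D.relIndex D' * D'.index := Nat.mul_le_mul_right _ (by omega)
      omega
    obtain ⟨y, hy, hyg⟩ := ih D' (fun a b => hle (hcomm a b)) (fun a => hle (hpow a)) h0' hidx' g
    rw [hD', mem_sup_of_normal_left] at hyg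
    obtain ⟨d, hd, z, hz, hdz⟩ := hyg
    obtain ⟨c, rfl⟩ := Subgroup.mem_zpowers_iff.1 hz
    have hp0 : (p : ℤ) ≠ 0 := by positivity
    have hc1 : 0 ≤ c % p := Int.emod_nonneg _ hp0
    have hc2 : c % p < p := Int.emod_lt_of_pos _ (by positivity)
    obtain ⟨k, hk⟩ := Int.eq_ofNat_of_zero_le hc1
    have hkp : k < p := by
      rw [hk] at hc2
      exact_mod_cast hc2
    refine ⟨y * x ^ k, ?_, ?_⟩
    · have h3 : x ^ k ∈ X ^ p := pow_mono' h1 hkp.le (Set.pow_mem_pow hx)
      have h4 := mul_mem_pow hy h3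
      rwa [mul_add_one]
    · have e : x ^ c = x ^ k * (x ^ p) ^ (c / p) := by
        have h5 : c = k + p * (c / p) := by
          have := Int.emod_add_mul_ediv c p
          rw [hk] at this
          exact this.symm
        conv_lhs => rw [h5]
        rw [zpow_add, zpow_mul, zpow_natCast, zpow_natCast]
      have e2 : (y * x ^ k)⁻¹ * g = ((x ^ k)⁻¹ * d * ((x ^ k)⁻¹)⁻¹) * (x ^ p) ^ (c / p) := by
        rw [mul_inv_rev, mul_assoc, ← hdz, e]
        group
      rw [e2]
      exact D.mul_mem (hDn.conj_mem _ hd _) (D.zpow_mem (hpow x) _)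

/-- two elements outside `N` have conjugates that do not commute modulo `N`. -/
theorem exists_conj {N : Subgroup H} (h : NAMax N) (a b : H) (ha : a ∉ N) (hb : b ∉ N) :
    ∃ g, a * (g * b * g⁻¹) * a⁻¹ * (g * b * g⁻¹)⁻¹ ∉ N := by
  by_contra hcon
  push Not at hcon
  have hn := h.normal
  -- the centraliser of `a` modulo `N`
  let Z : Subgroup H := (Subgroup.centralizer {QuotientGroup.mk' N a}).comap (QuotientGroup.mk' N)
  have hZ : ∀ y, y ∈ Z ↔ a * y * a⁻¹ * y⁻¹ ∈ N := by
    intro y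
    rw [Subgroup.mem_comap, Subgroup.mem_centralizer_singleton_iff, ← QuotientGroup.eq_one_iff,
      ← QuotientGroup.mk'_apply, map_mul, map_mul, map_mul, map_inv, map_inv, mul_inv_eq_one,
      mul_inv_eq_iff_eq_mul]
    exact eq_comm
  have hNZ : N ≤ Z := fun y hy => by
    rw [hZ]
    exact N.mul_mem (hn.conj_mem _ hy a) (N.inv_mem hy)
  have hK : Subgroup.normalClosure {b} ≤ Z := by
    rw [Subgroup.normalClosure, Subgroup.closure_le]
    intro z hz
    rw [Group.mem_conjugatesOfSet_iff] at hz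
    obtain ⟨b', hb', hc⟩ := hz
    rw [Set.mem_singleton_iff] at hb'
    subst hb'
    rw [isConj_iff] at hc
    obtain ⟨g, rfl⟩ := hc
    exact (hZ _).2 (hcon g)
  have hbK : ¬ Subgroup.normalClosure {b} ≤ N := fun h' =>
    hb (h' (Subgroup.subset_normalClosure (Set.mem_singleton b)))
  have hZtop : Z = ⊤ := by
    rw [eq_top_iff, ← sup_top h _ Subgroup.normalClosure_normal hbK]
    exact sup_le hK hNZ
  -- `a` is central modulo `N`
  let W : Subgroup H := (Subgroup.center (H ⧸ N)).comap (QuotientGroup.mk' N)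
  have hW : a ∈ W := by
    rw [Subgroup.mem_comap, Subgroup.mem_center_iff]
    intro q
    obtain ⟨y, rfl⟩ := QuotientGroup.mk'_surjective N q
    have hy : y ∈ Z := by rw [hZtop]; trivial
    rw [Subgroup.mem_comap, Subgroup.mem_centralizer_singleton_iff] at hy
    exact hy
  have hWn : W.Normal := inferInstance
  have hWtop := sup_top h W hWn fun h' => ha (h' hW)
  refine not_commute h W W hWtop hWtop fun x hx y _ => ?_
  rw [Subgroup.mem_comap, Subgroup.mem_center_iff] at hx
  rw [← QuotientGroup.eq_one_iff, ← QuotientGroup.mk'_apply, map_mul, map_mul, map_mul, map_inv,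
    map_inv, ← hx (QuotientGroup.mk' N y)]
  group

theorem pow_subset_subgroup {Y : Set H} {K : Subgroup H} (h : Y ⊆ K) (n : ℕ) :
    Y ^ n ⊆ (K : Set H) := by
  induction n with
  | zero =>
    rw [pow_zero, Set.one_subset]
    exact K.one_mem
  | succ n ih =>
    rw [pow_succ]
    rintro _ ⟨a, ha, b, hb, rfl⟩
    exact K.mul_mem (ih ha) (h hb)

theorem diam_T_one (X : Set H) (h1 : (1 : H) ∈ X) (hinv : ∀ x ∈ X, x⁻¹ ∈ X)
    (hX : Subgroup.closure X = ⊤) (N : Subgroup H) (hN : NAMax N) (M : Subgroup H) (hM : M.Normal)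
    (B : ℕ) (hB0 : N.index ≠ 0) (hB : N.index ≤ B) (L : ℕ) (w : H) (hw : w ∈ X ^ L) (hwN : w ∉ N)
    (hwM : w ∈ M) (g : H) : ∃ y ∈ X ^ (B * (L + 2 * B)), y⁻¹ * g ∈ N ∧ y ∈ M := by
  have hn := hN.normal
  set Q := H ⧸ N
  set f := QuotientGroup.mk' N with hf
  set X3 : Set H := {z | z = 1 ∨ ∃ g ∈ X ^ B, z = g * w * g⁻¹ ∨ z = g * w⁻¹ * g⁻¹} with hX3
  have hX3X : X3 ⊆ X ^ (L + 2 * B) := by
    rintro z (rfl | ⟨g, hg, rfl | rfl⟩)
    · exact Set.one_mem_pow h1
    · have e : L + 2 * B = B + L + B := by ring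
      rw [e]
      exact mul_mem_pow (mul_mem_pow hg hw) (inv_mem_pow hinv _ hg)
    · have e : L + 2 * B = B + L + B := by ring
      rw [e]
      exact mul_mem_pow (mul_mem_pow hg (inv_mem_pow hinv _ hw)) (inv_mem_pow hinv _ hg)
  have hX3M : X3 ⊆ M := by
    rintro z (rfl | ⟨g, hg, rfl | rfl⟩)
    · exact M.one_mem
    · exact hM.conj_mem _ hwM g
    · exact hM.conj_mem _ (M.inv_mem hwM) g
  have hshort : ∀ q : Q, ∃ g ∈ X ^ B, f g = q := by
    intro q
    obtain ⟨g, rfl⟩ := QuotientGroup.mk'_surjective N q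
    obtain ⟨x, hx, hxg⟩ := exists_short' X h1 hinv hX N hB0 B hB g
    exact ⟨x, hx, QuotientGroup.eq.2 hxg⟩
  have hgen : Subgroup.closure (f '' X3) = ⊤ := by
    have h2 : Subgroup.normalClosure {f w} = ⊤ := by
      have h3 : (Subgroup.normalClosure {f w}).comap f = ⊤ := by
        have h4 : ((Subgroup.normalClosure {f w}).comap f).Normal := inferInstance
        rcases hN.max _ h4 (fun x hx => by
            have h7 : f x = 1 := (QuotientGroup.eq_one_iff x).2 hx
            rw [Subgroup.mem_comap, h7]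
            exact Subgroup.one_mem _) with h | h
        · exfalso
          apply hwN
          rw [← h, Subgroup.mem_comap]
          exact Subgroup.subset_normalClosure (Set.mem_singleton _)
        · exact h
      have h5 : (Subgroup.normalClosure {f w}).comap f = (⊤ : Subgroup Q).comap f := by
        rw [h3, Subgroup.comap_top]
      exact Subgroup.comap_injective (QuotientGroup.mk'_surjective N) h5
    rw [eq_top_iff, ← h2, Subgroup.normalClosure]
    refine Subgroup.closure_mono ?_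
    intro z hz
    rw [Group.mem_conjugatesOfSet_iff] at hz
    obtain ⟨b', hb', hc⟩ := hz
    rw [Set.mem_singleton_iff] at hb'
    subst hb'
    rw [isConj_iff] at hc
    obtain ⟨q, rfl⟩ := hc
    obtain ⟨g, hg, rfl⟩ := hshort q
    exact ⟨g * w * g⁻¹, Or.inr ⟨g, hg, Or.inl rfl⟩, by simp only [map_mul, map_inv]⟩
  have hinv3 : ∀ x ∈ f '' X3, x⁻¹ ∈ f '' X3 := by
    rintro _ ⟨z, rfl | ⟨g, hg, rfl | rfl⟩, rfl⟩
    · exact ⟨1, Or.inl rfl, by simp⟩
    · exact ⟨g * w⁻¹ * g⁻¹, Or.inr ⟨g, hg, Or.inr rfl⟩, by simp [mul_assoc]⟩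
    · exact ⟨g * w * g⁻¹, Or.inr ⟨g, hg, Or.inl rfl⟩, by simp [mul_assoc]⟩
  have hidx : (⊥ : Subgroup Q).index = N.index := by
    rw [Subgroup.index_bot]
    rfl
  obtain ⟨x, hx, hxg⟩ := exists_short' (f '' X3) ⟨1, Or.inl rfl, map_one _⟩ hinv3 hgen ⊥
    (by rw [hidx]; exact hB0) B (by rw [hidx]; exact hB) (f g)
  rw [Subgroup.mem_bot, inv_mul_eq_one] at hxg
  rw [← Set.image_pow] at hx
  obtain ⟨y, hy, hyx⟩ := hx
  refine ⟨y, ?_, ?_, ?_⟩
  · rw [mul_comm, pow_mul]
    exact Set.pow_subset_pow_left hX3X hy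
  · rw [hxg] at hyx
    exact QuotientGroup.eq.1 hyx
  · exact pow_subset_subgroup hX3M B hy

/-- layers that are products of non-abelian simple groups of order at most `B`. -/
theorem diam_T (X : Set H) (h1 : (1 : H) ∈ X) (hinv : ∀ x ∈ X, x⁻¹ ∈ X)
    (hX : Subgroup.closure X = ⊤) {ι : Type*} [Fintype ι] [DecidableEq ι] (N : ι → Subgroup H)
    (hN : ∀ i, NAMax (N i)) (hinj : Function.Injective N) (B : ℕ)
    (hB : ∀ i, (N i).index ≠ 0 ∧ (N i).index ≤ B) (d : ℕ) (hd : Fintype.card ι ≤ 2 ^ d) (g : H) :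
    ∃ x ∈ X ^ (Fintype.card ι * (B * (4 ^ d * (3 * B ^ 2) + 2 * B))),
      ∀ i, x⁻¹ * g ∈ N i := by
  set L := 4 ^ d * (3 * B ^ 2) with hL
  have hone : ∀ i, ∃ y ∈ X ^ (B * (L + 2 * B)), y⁻¹ * g ∈ N i ∧ ∀ j, j ≠ i → y ∈ N j := by
    intro i
    have hp : ∀ v v', v ≠ v' → ∃ x ∈ N v', x ∉ N v := by
      intro v v' hvv
      by_contra hcon
      push Not at hcon
      rcases (hN v').max (N v) (hN v).normal hcon with h | h
      · exact hvv (hinj h)
      · obtain ⟨a, b, hab⟩ := (hN v).na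
        rw [h] at hab
        exact hab trivial
    obtain ⟨w, hw, hwi, hwj⟩ := tree N X h1 hinv hX (fun v => (hN v).normal) B hB
      (fun v => by
        obtain ⟨a, b, hab⟩ := (hN v).na
        exact ⟨_, hab⟩)
      (fun v a b ha hb => exists_conj (hN v) a b ha hb) hp d i (Finset.univ.erase i)
      ((Finset.card_le_univ _).trans hd) (Finset.notMem_erase _ _)
    have hMn : (⨅ (j : ι) (_ : j ≠ i), N j).Normal := by
      have h3 : ∀ j, (⨅ (_ : j ≠ i), N j).Normal := fun j => by
        have := (hN j).normal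
        exact Subgroup.normal_iInf_normal fun _ => this
      exact Subgroup.normal_iInf_normal h3
    obtain ⟨y, hy, hyg, hyM⟩ := diam_T_one X h1 hinv hX (N i) (hN i) _ hMn B (hB i).1 (hB i).2 L w
      hw hwi (by
        rw [Subgroup.mem_iInf]
        intro j
        rw [Subgroup.mem_iInf]
        intro hj
        exact hwj j (Finset.mem_erase.2 ⟨hj, Finset.mem_univ _⟩)) g
    refine ⟨y, hy, hyg, fun j hj => ?_⟩
    rw [Subgroup.mem_iInf] at hyM
    have := hyM j
    rw [Subgroup.mem_iInf] at this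
    exact this hj
  have hset : ∀ s : Finset ι, ∃ x ∈ X ^ (s.card * (B * (L + 2 * B))),
      (∀ i ∈ s, x⁻¹ * g ∈ N i) ∧ ∀ j, j ∉ s → x ∈ N j := by
    intro s
    induction s using Finset.induction_on with
    | empty =>
      refine ⟨1, Set.one_mem_pow h1, fun i hi => absurd hi (Finset.notMem_empty _),
        fun j _ => (N j).one_mem⟩
    | insert i s hi ih =>
      obtain ⟨x, hx, hxs, hxn⟩ := ih
      obtain ⟨y, hy, hyi, hyn⟩ := hone i
      refine ⟨x * y, ?_, ?_, ?_⟩
      · rw [Finset.card_insert_of_notMem hi, add_mul, one_mul]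
        exact mul_mem_pow hx hy
      · intro j hj
        have hnj := (hN j).normal
        rcases eq_or_ne j i with rfl | hji
        · have e : (x * y)⁻¹ * g = (y⁻¹ * x⁻¹ * (y⁻¹)⁻¹) * (y⁻¹ * g) := by group
          rw [e]
          exact (N j).mul_mem (hnj.conj_mem _ ((N j).inv_mem (hxn j hi)) _) hyi
        · have hjs : j ∈ s := by
            rcases Finset.mem_insert.1 hj with h | h
            · exact absurd h hji
            · exact h
          have e : (x * y)⁻¹ * g = y⁻¹ * (x⁻¹ * g) := by group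
          rw [e]
          exact (N j).mul_mem ((N j).inv_mem (hyn j hji)) (hxs j hjs)
      · intro j hj
        rw [Finset.mem_insert, not_or] at hj
        exact (N j).mul_mem (hxn j hj.2) (hyn j hj.1)
  obtain ⟨x, hx, hxs, _⟩ := hset Finset.univ
  exact ⟨x, hx, fun i => hxs i (Finset.mem_univ _)⟩

end Pool.Agent.Helper39.BC
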