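import Mathlib

set_option autoImplicit false

/-!
Lemma P of the project BC (MP_98e9ed_al): a core free subgroup `Y` of a finite group `V` that is a
product of `m` non-abelian simple groups has index at least `2 ^ (m / 2)`.
-/

namespace Pool.Agent.Helper39.BC

open Subgroup

section prime

variable {V : Type*} [Group V]

/-- `N` is a maximal normal subgroup with non-abelian quotient. -/
structure NAMax (N : Subgroup V) : Prop where
  normal : N.Normal
  max : ∀ K : Subgroup V, K.Normal → N ≤ K → K = N ∨ K = ⊤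
  na : ∃ a b : V, a * b * a⁻¹ * b⁻¹ ∉ N

theorem sup_top {N : Subgroup V} (h : NAMax N) (K : Subgroup V) (hK : K.Normal)
    (hKN : ¬ K ≤ N) : K ⊔ N = ⊤ := by
  have hN := h.normal
  rcases h.max (K ⊔ N) inferInstance le_sup_right with h1 | h1
  · exact absurd (le_sup_left.trans h1.le) hKN
  · exact h1

/-- if `A ⊔ N = B ⊔ N = ⊤` and `A`, `B` commute modulo `N` then the quotient is abelian. -/
theorem not_commute {N : Subgroup V} (h : NAMax N) (A B : Subgroup V) (hA : A ⊔ N = ⊤)
    (hB : B ⊔ N = ⊤) (hc : ∀ a ∈ A, ∀ b ∈ B, a * b * a⁻¹ * b⁻¹ ∈ N) : False := by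
  have hN := h.normal
  obtain ⟨x, y, hxy⟩ := h.na
  have hx : x ∈ A ⊔ N := by rw [hA]; trivial
  have hy : y ∈ B ⊔ N := by rw [hB]; trivial
  rw [mem_sup_of_normal_right] at hx hy
  obtain ⟨a, ha, n, hn, rfl⟩ := hx
  obtain ⟨b, hb, n', hn', rfl⟩ := hy
  apply hxy
  have h1 : QuotientGroup.mk' N (a * n * (b * n') * (a * n)⁻¹ * (b * n')⁻¹) =
      QuotientGroup.mk' N (a * b * a⁻¹ * b⁻¹) := by
    have e1 : QuotientGroup.mk' N n = 1 := by
      rwa [QuotientGroup.mk'_apply, QuotientGroup.eq_one_iff]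
    have e2 : QuotientGroup.mk' N n' = 1 := by
      rwa [QuotientGroup.mk'_apply, QuotientGroup.eq_one_iff]
    simp only [map_mul, map_inv, e1, e2, mul_one]
  have h2 : QuotientGroup.mk' N (a * b * a⁻¹ * b⁻¹) = 1 := by
    rw [QuotientGroup.mk'_apply, QuotientGroup.eq_one_iff]
    exact hc a ha b hb
  rw [h2, QuotientGroup.mk'_apply, QuotientGroup.eq_one_iff] at h1
  exact h1

/-- `N` is prime: `A ⊓ B ≤ N` implies `A ≤ N` or `B ≤ N` for normal subgroups. -/
theorem prime {N : Subgroup V} (h : NAMax N) (A B : Subgroup V) (hA : A.Normal) (hB : B.Normal)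
    (hAB : A ⊓ B ≤ N) : A ≤ N ∨ B ≤ N := by
  by_contra hcon
  push Not at hcon
  refine not_commute h A B (sup_top h A hA hcon.1) (sup_top h B hB hcon.2) fun a ha b hb => ?_
  apply hAB
  refine ⟨?_, ?_⟩
  · have : a * b * a⁻¹ * b⁻¹ = a * (b * a⁻¹ * b⁻¹) := by group
    rw [this]
    exact A.mul_mem ha (hA.conj_mem _ (A.inv_mem ha) b)
  · exact B.mul_mem (hB.conj_mem _ hb a) (B.inv_mem hb)

end prime

section family

variable {V : Type*} [Group V] {ι : Type*} [Fintype ι] [DecidableEq ι] {N : ι → Subgroup V}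

/-- elements supported on `I`. -/
def T (N : ι → Subgroup V) (I : Finset ι) : Subgroup V := ⨅ i ∈ Iᶜ, N i

omit [Fintype ι] in
theorem iInf_le_or (hN : ∀ i, NAMax (N i)) (J : Finset ι) (i : ι) (h : (⨅ j ∈ J, N j) ≤ N i) :
    ∃ j ∈ J, N j ≤ N i := by
  induction J using Finset.induction_on with
  | empty =>
    exfalso
    simp only [Finset.notMem_empty, iInf_false, iInf_top, top_le_iff] at h
    obtain ⟨a, b, hab⟩ := (hN i).na
    rw [h] at hab
    exact hab trivial
  | insert j J hj ih =>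
    rw [Finset.iInf_insert] at h
    have hn : (⨅ j ∈ J, N j).Normal := by
      have h3 : ∀ j, (⨅ (_ : j ∈ J), N j).Normal := fun j => by
        have := (hN j).normal
        exact Subgroup.normal_iInf_normal fun _ => this
      exact Subgroup.normal_iInf_normal h3
    rcases prime (hN i) _ _ (hN j).normal hn h with h1 | h1
    · exact ⟨j, Finset.mem_insert_self _ _, h1⟩
    · obtain ⟨j', hj', h2⟩ := ih h1
      exact ⟨j', Finset.mem_insert_of_mem hj', h2⟩

theorem T_normal (hN : ∀ i, NAMax (N i)) (I : Finset ι) : (T N I).Normal := by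
  have h3 : ∀ j, (⨅ (_ : j ∈ Iᶜ), N j).Normal := fun j => by
    have := (hN j).normal
    exact Subgroup.normal_iInf_normal fun _ => this
  exact Subgroup.normal_iInf_normal h3

theorem mem_T {I : Finset ι} {x : V} : x ∈ T N I ↔ ∀ i, i ∉ I → x ∈ N i := by
  simp [T, Subgroup.mem_iInf]

theorem T_le {I : Finset ι} {i : ι} (hi : i ∉ I) : T N I ≤ N i := fun _ hx => mem_T.1 hx i hi

theorem T_mono {I J : Finset ι} (h : I ⊆ J) : T N I ≤ T N J := fun _ hx =>
  mem_T.2 fun i hi => mem_T.1 hx i fun h' => hi (h h')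

theorem not_T_le (hN : ∀ i, NAMax (N i)) (hinj : Function.Injective N) {I : Finset ι} {i : ι}
    (hi : i ∈ I) : ¬ T N I ≤ N i := by
  intro h
  obtain ⟨j, hj, hji⟩ := iInf_le_or hN _ _ h
  have hj' : j ∉ I := by simpa using hj
  rcases (hN j).max (N i) (hN i).normal hji with h1 | h1
  · exact hj' (hinj h1 ▸ hi)
  · obtain ⟨a, b, hab⟩ := (hN i).na
    rw [h1] at hab
    exact hab trivial

theorem T_empty (h1 : (⨅ i, N i) = ⊥) : T N ∅ = ⊥ := by
  rw [eq_bot_iff, ← h1]
  intro x hx
  rw [Subgroup.mem_iInf]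
  exact fun i => mem_T.1 hx i (by simp)

theorem T_inf {I J : Finset ι} : T N I ⊓ T N J = T N (I ∩ J) := by
  ext x
  simp only [Subgroup.mem_inf, mem_T, Finset.mem_inter, not_and_or]
  constructor
  · rintro ⟨ha, hb⟩ i (h | h)
    exacts [ha i h, hb i h]
  · exact fun h => ⟨fun i hi => h i (Or.inl hi), fun i hi => h i (Or.inr hi)⟩

theorem index_ge_four [Finite V] {N : Subgroup V} (h : NAMax N) : 4 ≤ N.index := by
  have hN := h.normal
  obtain ⟨a, b, hab⟩ := h.na
  set f := QuotientGroup.mk' N with hf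
  have hab' : f a * f b ≠ f b * f a := by
    intro h1
    apply hab
    rw [← QuotientGroup.eq_one_iff, ← QuotientGroup.mk'_apply, ← hf, map_mul, map_mul, map_mul,
      h1, map_inv, map_inv]
    group
  have h1 : ({1, f a, f b, f a * f b} : Set (V ⧸ N)).ncard = 4 := by
    have e1 : (1 : V ⧸ N) ≠ f a := fun h => hab' (by rw [← h]; simp)
    have e2 : (1 : V ⧸ N) ≠ f b := fun h => hab' (by rw [← h]; simp)
    have e3 : (1 : V ⧸ N) ≠ f a * f b := fun h => hab' (by
      have : f b = (f a)⁻¹ := eq_inv_of_mul_eq_one_right h.symm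
      rw [this]; simp)
    have e4 : f a ≠ f b := fun h => hab' (by rw [h])
    have e5 : f a ≠ f a * f b := fun h => e2 (left_eq_mul.1 h).symm
    have e6 : f b ≠ f a * f b := fun h => e1 (right_eq_mul.1 h).symm
    rw [Set.ncard_insert_of_notMem, Set.ncard_insert_of_notMem, Set.ncard_pair e6]
    · simp [e4, e5]
    · simp [e1, e2, e3]
  rw [Subgroup.index, ← h1, ← Set.ncard_univ]
  exact Set.ncard_le_ncard (Set.subset_univ _) (Set.toFinite _)

theorem card_T [Finite V] (hN : ∀ i, NAMax (N i)) (hinj : Function.Injective N)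
    (I : Finset ι) : 4 ^ I.card ≤ Nat.card (T N I) := by
  induction I using Finset.induction_on with
  | empty =>
    rw [Finset.card_empty, pow_zero]
    exact Nat.card_pos
  | insert i I hi ih =>
    rw [Finset.card_insert_of_notMem hi, pow_succ]
    have hle : T N I ≤ T N (insert i I) := T_mono (Finset.subset_insert _ _)
    have hsup : T N (insert i I) ⊔ N i = ⊤ :=
      sup_top (hN i) _ (T_normal hN _) (not_T_le hN hinj (Finset.mem_insert_self _ _))
    have e : T N I = N i ⊓ T N (insert i I) := by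
      ext x
      simp only [Subgroup.mem_inf, mem_T, Finset.mem_insert, not_or]
      constructor
      · exact fun h => ⟨h i hi, fun j hj => h j hj.2⟩
      · rintro ⟨h1, h2⟩ j hj
        rcases eq_or_ne j i with rfl | hji
        · exact h1
        · exact h2 j ⟨hji, hj⟩
    have hn := (hN i).normal
    have h4 : 4 ≤ (T N I).relIndex (T N (insert i I)) := by
      rw [e, Subgroup.inf_relIndex_right, ← Subgroup.relIndex_sup_right, hsup,
        Subgroup.relIndex_top_right]
      exact index_ge_four (hN i)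
    have h5 := Subgroup.relIndex_mul_relIndex ⊥ (T N I) (T N (insert i I)) bot_le hle
    rw [Subgroup.relIndex_bot_left, Subgroup.relIndex_bot_left] at h5
    rw [← h5]
    exact Nat.mul_le_mul ih h4

theorem card_le_index [Finite V] (A Y : Subgroup V) (h : Y ⊓ A = ⊥) : Nat.card A ≤ Y.index := by
  rw [Subgroup.index]
  refine Nat.card_le_card_of_injective (fun a : A => (QuotientGroup.mk (a : V) : V ⧸ Y)) ?_
  intro a b hab
  have h1 : (a : V)⁻¹ * b ∈ Y := QuotientGroup.eq.1 hab
  have h2 : (a : V)⁻¹ * b ∈ Y ⊓ A := ⟨h1, A.mul_mem (A.inv_mem a.2) b.2⟩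
  rw [h, Subgroup.mem_bot] at h2
  ext
  exact inv_mul_eq_one.1 h2

theorem pow_le_index_inf [Finite V] (hN : ∀ i, NAMax (N i)) (hinj : Function.Injective N)
    (Y : Subgroup V) (A : Finset ι) (hA : ∀ i ∈ A, Y ⊔ N i ≠ ⊤) :
    2 ^ A.card ≤ (⨅ i ∈ A, (Y ⊔ N i)).index := by
  induction A using Finset.induction_on with
  | empty => simp
  | insert i A hi ih =>
    rw [Finset.card_insert_of_notMem hi, pow_succ, Finset.iInf_insert]
    set Z := ⨅ i ∈ A, (Y ⊔ N i) with hZ
    have ih' := ih fun j hj => hA j (Finset.mem_insert_of_mem hj)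
    have h1 := Subgroup.relIndex_mul_index (inf_le_right : (Y ⊔ N i) ⊓ Z ≤ Z)
    have h2 : 2 ≤ ((Y ⊔ N i) ⊓ Z).relIndex Z := by
      have h0 : ((Y ⊔ N i) ⊓ Z).relIndex Z ≠ 0 := Subgroup.index_ne_zero_of_finite
      have h3 : ((Y ⊔ N i) ⊓ Z).relIndex Z ≠ 1 := by
        intro h4
        rw [Subgroup.relIndex_eq_one] at h4
        have h5 : T N {i} ≤ Z := by
          rw [hZ]
          refine le_iInf₂ fun j hj => ?_
          refine (T_le ?_).trans le_sup_right
          rw [Finset.mem_singleton]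
          rintro rfl
          exact hi hj
        have h6 : T N {i} ≤ Y ⊔ N i := h5.trans (h4.trans inf_le_left)
        have h7 : T N {i} ⊔ N i = ⊤ :=
          sup_top (hN i) _ (T_normal hN _) (not_T_le hN hinj (Finset.mem_singleton_self _))
        apply hA i (Finset.mem_insert_self _ _)
        rw [eq_top_iff, ← h7]
        exact sup_le h6 le_sup_right
      omega
    rw [← h1]
    calc 2 ^ A.card * 2 ≤ Z.index * ((Y ⊔ N i) ⊓ Z).relIndex Z := Nat.mul_le_mul ih' h2
      _ = _ := Nat.mul_comm _ _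

/-- Lemma P. -/
theorem lemmaP [Finite V] (hN : ∀ i, NAMax (N i)) (hinj : Function.Injective N)
    (h1 : (⨅ i, N i) = ⊥) (Y : Subgroup V)
    (hY : ∀ K : Subgroup V, K.Normal → K ≤ Y → K = ⊥) :
    2 ^ Fintype.card ι ≤ Y.index ^ 2 := by
  classical
  set A : Finset ι := Finset.univ.filter fun i => Y ⊔ N i ≠ ⊤ with hAdef
  have hA : 2 ^ A.card ≤ Y.index := by
    refine (pow_le_index_inf hN hinj Y A fun i hi => (Finset.mem_filter.1 hi).2).trans ?_
    refine Nat.le_of_dvd (Nat.pos_of_ne_zero Subgroup.index_ne_zero_of_finite) ?_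
    exact Subgroup.index_dvd_of_le (le_iInf₂ fun i _ => le_sup_left)
  have hAc : ∀ i ∈ Aᶜ, Y ⊔ N i = ⊤ := fun i hi => by
    by_contra hcon
    exact (Finset.mem_compl.1 hi) (Finset.mem_filter.2 ⟨Finset.mem_univ _, hcon⟩)
  -- single supports
  have hsing : ∀ i ∈ Aᶜ, Y ⊓ T N {i} = ⊥ := by
    intro i hi
    refine hY _ ⟨fun x hx g => ?_⟩ inf_le_left
    have hn := (hN i).normal
    have hg : g ∈ Y ⊔ N i := by rw [hAc i hi]; trivial
    rw [mem_sup_of_normal_right] at hg
    obtain ⟨y, hy, n, hn', rfl⟩ := hg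
    have hcomm : n * x * n⁻¹ = x := by
      have h2 : n * x * n⁻¹ * x⁻¹ ∈ N i ⊓ T N {i} := by
        refine ⟨?_, ?_⟩
        · have : n * x * n⁻¹ * x⁻¹ = n * (x * n⁻¹ * x⁻¹) := by group
          rw [this]
          exact (N i).mul_mem hn' (hn.conj_mem _ ((N i).inv_mem hn') x)
        · exact (T N {i}).mul_mem ((T_normal hN _).conj_mem _ hx.2 n) ((T N {i}).inv_mem hx.2)
      have h3 : N i ⊓ T N {i} ≤ ⊥ := by
        rw [← T_empty h1]
        rintro z ⟨hz1, hz2⟩
        refine mem_T.2 fun j _ => ?_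
        rcases eq_or_ne j i with rfl | hji
        · exact hz1
        · exact mem_T.1 hz2 j (by simpa using hji)
      have h4 := h3 h2
      rw [Subgroup.mem_bot, mul_inv_eq_one] at h4
      exact h4
    have h5 : y * n * x * (y * n)⁻¹ = y * x * y⁻¹ := by
      conv_rhs => rw [← hcomm]
      group
    rw [h5]
    exact ⟨Y.mul_mem (Y.mul_mem hy hx.1) (Y.inv_mem hy), (T_normal hN _).conj_mem _ hx.2 y⟩
  -- a maximal set
  obtain ⟨I, hI, hImax⟩ := Finset.exists_max_image
    ((Aᶜ).powerset.filter fun I => Y ⊓ T N I = ⊥) Finset.card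
    ⟨∅, Finset.mem_filter.2 ⟨Finset.empty_mem_powerset _, by rw [T_empty h1, inf_bot_eq]⟩⟩
  rw [Finset.mem_filter, Finset.mem_powerset] at hI
  obtain ⟨hIA, hI0⟩ := hI
  have hext : ∀ j ∈ Aᶜ \ I, Y ⊓ T N (insert j I) ≠ ⊥ := by
    intro j hj hcon
    rw [Finset.mem_sdiff] at hj
    have := hImax (insert j I) (Finset.mem_filter.2 ⟨Finset.mem_powerset.2
      (Finset.insert_subset hj.1 hIA), hcon⟩)
    rw [Finset.card_insert_of_notMem hj.2] at this
    omega
  have hsupp : ∀ j ∈ Aᶜ \ I, ∃ i ∈ I, ¬ (Y ⊓ T N (insert j I) ≤ N i) := by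
    intro j hj
    by_contra hcon
    push Not at hcon
    apply hext j hj
    rw [eq_bot_iff, ← hsing j (Finset.mem_sdiff.1 hj).1]
    refine le_inf inf_le_left fun x hx => mem_T.2 fun i hi => ?_
    by_cases hiI : i ∈ I
    · exact hcon i hiI hx
    · exact mem_T.1 hx.2 i (by
        rw [Finset.mem_insert, not_or]
        exact ⟨by simpa using hi, hiI⟩)
  choose! φ hφI hφ using hsupp
  have hφinj : Set.InjOn φ (Aᶜ \ I : Finset ι) := by
    intro j hj k hk hjk
    by_contra hne
    have hj' : j ∈ Aᶜ \ I := hj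
    have hk' : k ∈ Aᶜ \ I := hk
    have hi : φ j ∈ Aᶜ := hIA (hφI j hj')
    have key : ∀ l, ¬ (Y ⊓ T N (insert l I) ≤ N (φ j)) →
        (Y ⊓ T N (insert l I)) ⊔ N (φ j) = ⊤ := by
      intro l hl
      have hn := (hN (φ j)).normal
      have hnorm : ((Y ⊓ T N (insert l I)) ⊔ N (φ j)).Normal := by
        refine ⟨fun x hx g => ?_⟩
        have hg : g ∈ Y ⊔ N (φ j) := by rw [hAc _ hi]; trivial
        rw [mem_sup_of_normal_right] at hg hx
        obtain ⟨y, hy, n, hn', rfl⟩ := hg
        obtain ⟨a, ha, n2, hn2, rfl⟩ := hx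
        have hle : N (φ j) ≤ (Y ⊓ T N (insert l I)) ⊔ N (φ j) := le_sup_right
        have e : y * n * (a * n2) * (y * n)⁻¹ =
            (y * a * y⁻¹) * ((y * a⁻¹) * (n * (a * n2 * a⁻¹) * (a * n⁻¹ * a⁻¹)) * (y * a⁻¹)⁻¹) := by
          group
        rw [e]
        refine Subgroup.mul_mem _ (le_sup_left (a := Y ⊓ T N (insert l I)) (b := N (φ j)) ?_)
          (hle ?_)
        · exact ⟨Y.mul_mem (Y.mul_mem hy ha.1) (Y.inv_mem hy),
            (T_normal hN _).conj_mem _ ha.2 y⟩
        · refine hn.conj_mem _ ((N (φ j)).mul_mem ((N (φ j)).mul_mem hn' ?_) ?_) _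
          · exact hn.conj_mem _ hn2 a
          · exact hn.conj_mem _ ((N (φ j)).inv_mem hn') a
      rcases (hN (φ j)).max _ hnorm le_sup_right with h | h
      · exact absurd (le_sup_left.trans h.le) hl
      · exact h
    refine not_commute (hN (φ j)) _ _ (key j (hφ j hj')) (key k (hjk ▸ hφ k hk'))
      fun a ha b hb => ?_
    have h2 : a * b * a⁻¹ * b⁻¹ ∈ Y ⊓ T N I := by
      refine ⟨Y.mul_mem (Y.mul_mem (Y.mul_mem ha.1 hb.1) (Y.inv_mem ha.1)) (Y.inv_mem hb.1), ?_⟩
      have h3 : a * b * a⁻¹ * b⁻¹ ∈ T N (insert j I) ⊓ T N (insert k I) := by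
        refine ⟨?_, ?_⟩
        · have : a * b * a⁻¹ * b⁻¹ = a * (b * a⁻¹ * b⁻¹) := by group
          rw [this]
          exact Subgroup.mul_mem _ ha.2 ((T_normal hN _).conj_mem _ (Subgroup.inv_mem _ ha.2) b)
        · exact Subgroup.mul_mem _ ((T_normal hN _).conj_mem _ hb.2 a) (Subgroup.inv_mem _ hb.2)
      rw [T_inf] at h3
      refine T_mono ?_ h3
      intro x hx
      rw [Finset.mem_inter, Finset.mem_insert, Finset.mem_insert] at hx
      rcases hx.1 with rfl | h
      · rcases hx.2 with h | h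
        · exact absurd h hne
        · exact h
      · exact h
    rw [hI0, Subgroup.mem_bot] at h2
    rw [h2]
    exact Subgroup.one_mem _
  have hcard : (Aᶜ \ I).card ≤ I.card := by
    refine Finset.card_le_card_of_injOn φ (fun j hj => hφI j hj) hφinj
  have hAcI : (Aᶜ).card ≤ 2 * I.card := by
    have := Finset.card_sdiff_add_card_eq_card hIA
    omega
  have hIndex : 4 ^ I.card ≤ Y.index := (card_T hN hinj I).trans (card_le_index _ _ hI0)
  have hsum : Fintype.card ι = A.card + (Aᶜ).card := (Finset.card_add_card_compl A).symm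
  calc 2 ^ Fintype.card ι = 2 ^ A.card * 2 ^ (Aᶜ).card := by rw [hsum, pow_add]
    _ ≤ Y.index * Y.index := by
        refine Nat.mul_le_mul hA (le_trans ?_ hIndex)
        calc 2 ^ (Aᶜ).card ≤ 2 ^ (2 * I.card) := Nat.pow_le_pow_right (by norm_num) hAcI
          _ = 4 ^ I.card := by rw [pow_mul]; norm_num
    _ = _ := (sq _).symm

end family

end Pool.Agent.Helper39.BC
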