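import Pool.Agent.Helper39.BC.Struct

set_option autoImplicit false
set_option linter.unusedSectionVars false

/-!
The non-abelian case of the theorem `rounds` (project BC, MP_98e9ed_al).
-/

open scoped Pointwise commutatorElement

namespace Pool.Agent.Helper39.BC

open Pool.Agent.Helper94.BC

variable {Q : Type} [Group Q] [Finite Q]

theorem map_conj_eq {V : Subgroup Q} (hV : V.Normal) (g : Q) :
    V.map (MulAut.conj g).toMonoidHom = V :=
  nor_iff_map.1 (nor_of_normal ⊤ hV) g trivial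

theorem nm_conj {V N : Subgroup Q} (hV : V.Normal) (h : NM V N) (g : Q) :
    NM V (N.map (MulAut.conj g).toMonoidHom) := by
  have h1 := nm_map (MulAut.conj g) h
  rwa [map_conj_eq hV g] at h1

/-- a subgroup of `S ⊓ V` that is normalised by `V` is trivial. -/
theorem core_V (S V : Subgroup Q) (hVn : V.Normal) (hVS : V ⊔ S = ⊤)
    (hcore : ∀ K : Subgroup Q, K.Normal → K ≤ S → K = ⊥) (K : Subgroup Q) (hKS : K ≤ S)
    (hKV : K ≤ V) (hK : Nor V K) : K = ⊥ := by
  let T : Set (Subgroup Q) := {K | K ≤ S ∧ K ≤ V ∧ Nor V K}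
  obtain ⟨K1, hKK1, hmax⟩ := T.toFinite.exists_le_maximal (show K ∈ T from ⟨hKS, hKV, hK⟩)
  obtain ⟨⟨h1, h2, h3⟩, hmax⟩ := hmax
  have h4 : Nor S K1 := by
    intro s hs x hx
    have h5 : K1.map (MulAut.conj s).toMonoidHom ∈ T := by
      refine ⟨?_, ?_, ?_⟩
      · rintro _ ⟨y, hy, rfl⟩
        exact S.mul_mem (S.mul_mem hs (h1 hy)) (S.inv_mem hs)
      · rintro _ ⟨y, hy, rfl⟩
        exact hVn.conj_mem _ (h2 hy) s
      · have := nor_map (MulAut.conj s) h3
        rwa [map_conj_eq hVn s] at this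
    have h6 : K1 ⊔ K1.map (MulAut.conj s).toMonoidHom ∈ T :=
      ⟨sup_le h1 h5.1, sup_le h2 h5.2.1, nor_sup h3 h5.2.2⟩
    have h7 := hmax h6 le_sup_left
    exact h7 (Subgroup.mem_sup_right ⟨x, hx, rfl⟩)
  have h8 : K1 = ⊥ := by
    refine hcore K1 (normal_of_nor ?_) h1
    rw [← hVS]
    exact nor_sup_left h3 h4
  rw [h8] at hKK1
  exact le_bot_iff.1 hKK1

/-- the number of maximal normal subgroups of `V` with non-abelian quotient. -/
theorem count_nm (S V : Subgroup Q) (hVn : V.Normal) (hVS : V ⊔ S = ⊤)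
    (hcore : ∀ K : Subgroup Q, K.Normal → K ≤ S → K = ⊥) (hphi : PhiT V = ⊥) :
    2 ^ ({N : Subgroup Q | NM V N}).ncard ≤ S.index ^ 2 := by
  classical
  set F : Set (Subgroup Q) := {N : Subgroup Q | NM V N} with hF
  have : Fintype F := Fintype.ofFinite F
  let N : F → Subgroup V := fun i => (i : Subgroup Q).subgroupOf V
  have hmapN : ∀ i : F, (N i).map V.subtype = i := fun i => by
    have h1 : NM V (i : Subgroup Q) := i.2
    exact Subgroup.map_subgroupOf_eq_of_le h1.le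
  have hN : ∀ i, NAMax (N i) := by
    intro i
    have hi : NM V (i : Subgroup Q) := i.2
    refine ⟨⟨fun n hn g => ?_⟩, fun K hK hNK => ?_, ?_⟩
    · rw [Subgroup.mem_subgroupOf] at hn ⊢
      exact hi.nor g g.2 n hn
    · have h1 : (i : Subgroup Q) ≤ K.map V.subtype := by
        rw [← hmapN i]
        exact Subgroup.map_mono hNK
      have h2 : K.map V.subtype ≤ V := Subgroup.map_subtype_le K
      have h3 : Nor V (K.map V.subtype) := by
        rintro v hv _ ⟨x, hx, rfl⟩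
        exact ⟨⟨v, hv⟩ * x * ⟨v, hv⟩⁻¹, hK.conj_mem x hx _, rfl⟩
      rcases hi.max _ h1 h2 h3 with h4 | h4
      · left
        rw [← hmapN i] at h4
        exact Subgroup.map_injective V.subtype_injective h4
      · right
        rw [eq_top_iff]
        intro x _
        have h5 : (x : Q) ∈ K.map V.subtype := by
          rw [h4]
          exact x.2
        obtain ⟨y, hy, hyx⟩ := h5
        have : y = x := Subtype.ext hyx
        rwa [← this]
    · by_contra hcon
      push Not at hcon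
      apply hi.nab
      rw [Subgroup.commutator_le]
      intro a ha b hb
      have := hcon ⟨a, ha⟩ ⟨b, hb⟩
      rw [Subgroup.mem_subgroupOf] at this
      exact this
  have hinj : Function.Injective N := by
    intro i j hij
    apply Subtype.ext
    rw [← hmapN i, ← hmapN j, hij]
  have hbot : (⨅ i, N i) = ⊥ := by
    rw [eq_bot_iff]
    intro x hx
    rw [Subgroup.mem_iInf] at hx
    have h1 : (x : Q) ∈ PhiT V := by
      refine ⟨x.2, Subgroup.mem_sInf.2 fun M hM => ?_⟩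
      have := hx ⟨M, hM⟩
      rw [Subgroup.mem_subgroupOf] at this
      exact this
    rw [hphi, Subgroup.mem_bot] at h1
    rw [Subgroup.mem_bot]
    exact Subtype.ext h1
  have hY : ∀ K : Subgroup V, K.Normal → K ≤ S.subgroupOf V → K = ⊥ := by
    intro K hK hKS
    have h1 : K.map V.subtype = ⊥ := by
      refine core_V S V hVn hVS hcore _ ?_ (Subgroup.map_subtype_le K) ?_
      · rintro _ ⟨x, hx, rfl⟩
        exact hKS hx
      · rintro v hv _ ⟨x, hx, rfl⟩
        exact ⟨⟨v, hv⟩ * x * ⟨v, hv⟩⁻¹, hK.conj_mem x hx _, rfl⟩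
    rw [eq_bot_iff]
    intro x hx
    have h2 : (x : Q) ∈ K.map V.subtype := ⟨x, hx, rfl⟩
    rw [h1, Subgroup.mem_bot] at h2
    rw [Subgroup.mem_bot]
    exact Subtype.ext h2
  have h := lemmaP hN hinj hbot (S.subgroupOf V) hY
  have hcard : Fintype.card F = F.ncard := by
    rw [← Nat.card_eq_fintype_card]
    rfl
  rw [hcard] at h
  refine h.trans (Nat.pow_le_pow_left ?_ 2)
  have h1 : S.relIndex V ≤ S.relIndex ⊤ :=
    Subgroup.relIndex_le_of_le_right le_top Subgroup.index_ne_zero_of_finite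
  rwa [Subgroup.relIndex_top_right] at h1

theorem index_normalizer (V : Subgroup Q) (hVn : V.Normal) (N : Subgroup Q) (hN : NM V N) :
    (Subgroup.normalizer (N : Set Q)).index ≤ ({N : Subgroup Q | NM V N}).ncard := by
  refine index_le_ncard _ (fun g => N.map (MulAut.conj g).toMonoidHom) _ (Set.toFinite _)
    (fun g => nm_conj hVn hN g) ?_
  intro g h hgh
  have hgh' : N.map (MulAut.conj g).toMonoidHom = N.map (MulAut.conj h).toMonoidHom := hgh
  have key : ∀ a b : Q, N.map (MulAut.conj a).toMonoidHom = N.map (MulAut.conj b).toMonoidHom →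
      ∀ n ∈ N, a⁻¹ * b * n * (a⁻¹ * b)⁻¹ ∈ N := by
    intro a b hab n hn
    have h1 : b * n * b⁻¹ ∈ N.map (MulAut.conj a).toMonoidHom := by
      rw [hab]
      exact ⟨n, hn, rfl⟩
    rw [conj_map_mem] at h1
    have e : a⁻¹ * b * n * (a⁻¹ * b)⁻¹ = a⁻¹ * (b * n * b⁻¹) * a := by group
    rwa [e]
  rw [Subgroup.mem_normalizer_iff]
  intro n
  refine ⟨fun hn => key g h hgh' n hn, fun hn => ?_⟩
  have h1 := key h g hgh'.symm _ hn
  have e : h⁻¹ * g * (g⁻¹ * h * n * (g⁻¹ * h)⁻¹) * (h⁻¹ * g)⁻¹ = n := by group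
  rwa [e] at h1

/-- The centraliser of `V / N` has index at most `b ^ b`, `b = [V : N]`. -/
theorem cen_relIndex (V N K : Subgroup Q) (hVn : V.Normal) (hN : NM V N) (hK : Nor K N) (B : ℕ)
    (hB : N.relIndex V ≤ B) : (cen K N V hK).relIndex K ≤ B ^ B := by
  classical
  let W := (↥V ⧸ N.subgroupOf V)
  have hmem : ∀ (g : Q) (v : V), g * (v : Q) * g⁻¹ ∈ V := fun g v => hVn.conj_mem _ v.2 g
  let f : K → (W → W) := fun g q => (QuotientGroup.mk ⟨(g : Q) * (q.out : V) * (g : Q)⁻¹,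
    hmem g q.out⟩ : W)
  have h1 : ((cen K N V hK).subgroupOf K).index ≤ (Set.univ : Set (W → W)).ncard := by
    refine index_le_ncard _ f _ (Set.toFinite _) (fun g => trivial) ?_
    intro g h hgh
    rw [Subgroup.mem_subgroupOf]
    refine ⟨(g⁻¹ * h).2, fun c hc => ?_⟩
    set q : W := QuotientGroup.mk ⟨c, hc⟩ with hq
    set c' : V := q.out with hc'
    have e1 : (c' : Q)⁻¹ * c ∈ N := by
      have h2 : (QuotientGroup.mk c' : W) = QuotientGroup.mk ⟨c, hc⟩ := by
        rw [hc', QuotientGroup.out_eq']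
      have h3 := QuotientGroup.eq.1 h2
      rw [Subgroup.mem_subgroupOf] at h3
      exact h3
    have e2 : ((g : Q) * c' * (g : Q)⁻¹)⁻¹ * ((h : Q) * c' * (h : Q)⁻¹) ∈ N := by
      have h2 := congrFun hgh q
      have h3 := QuotientGroup.eq.1 h2
      rw [Subgroup.mem_subgroupOf] at h3
      exact h3
    have e3 : (h : Q) * ((c' : Q)⁻¹ * c) * (h : Q)⁻¹ ∈ N := hK h h.2 _ e1
    have e4 : (g : Q)⁻¹ * ((((g : Q) * c' * (g : Q)⁻¹)⁻¹ * ((h : Q) * c' * (h : Q)⁻¹)) *
        ((h : Q) * ((c' : Q)⁻¹ * c) * (h : Q)⁻¹)) * (g : Q)⁻¹⁻¹ ∈ N :=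
      hK _ (K.inv_mem g.2) _ (N.mul_mem e2 e3)
    have e5 := N.mul_mem e4 (N.inv_mem e1)
    have e6 := hN.nor c' c'.2 _ e5
    have e7 : ⁅((g⁻¹ * h : K) : Q), c⁆ = (c' : Q) * ((g : Q)⁻¹ * ((((g : Q) * c' * (g : Q)⁻¹)⁻¹ *
        ((h : Q) * c' * (h : Q)⁻¹)) * ((h : Q) * ((c' : Q)⁻¹ * c) * (h : Q)⁻¹)) * (g : Q)⁻¹⁻¹ *
        ((c' : Q)⁻¹ * c)⁻¹) * (c' : Q)⁻¹ := by
      rw [commutatorElement_def]
      push_cast
      group
    rw [e7]
    exact e6
  have h2 : (Set.univ : Set (W → W)).ncard = N.relIndex V ^ N.relIndex V := by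
    rw [Set.ncard_univ, Nat.card_fun]
    rfl
  rw [h2] at h1
  have h0 : N.relIndex V ≠ 0 := Subgroup.index_ne_zero_of_finite
  calc (cen K N V hK).relIndex K ≤ N.relIndex V ^ N.relIndex V := h1
    _ ≤ B ^ N.relIndex V := Nat.pow_le_pow_left hB _
    _ ≤ B ^ B := Nat.pow_le_pow_right (by omega) hB

theorem log_small {l m : ℕ} (hl : 8 ≤ l) (hm : m < 2 * l + 2) : m < 2 ^ (l / 2 + 1) := by
  have key : ∀ t, 4 ≤ t → 4 * t + 3 < 2 ^ (t + 1) := by
    intro t ht
    induction t, ht using Nat.le_induction with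
    | base => norm_num
    | succ t ht ih =>
      rw [pow_succ]
      omega
  have := key (l / 2) (by omega)
  omega

theorem nonabelian_case (S V : Subgroup Q) (hVn : V.Normal)
    (hVmin : ∀ W : Subgroup Q, W.Normal → W ≤ V → W = ⊥ ∨ W = V) (hVS : V ⊔ S = ⊤)
    (hcore : ∀ K : Subgroup Q, K.Normal → K ≤ S → K = ⊥) (hab : ⁅V, V⁆ ≠ ⊥) (B : ℕ)
    (hcls : ∀ N : Subgroup Q, NM V N → N.relIndex V ≤ B) (C : ℕ) (hC : 2 + 2 * (B * B) ≤ C)
    (hk : 256 ≤ S.index) (L : ℕ → Subgroup Q) (sl : SL L S.index C) :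
    L (C * Nat.log 2 S.index) = ⊥ := by
  set k := S.index with hkdef
  have hperf : ⁅V, V⁆ = V := by
    rcases hVmin ⁅V, V⁆ inferInstance (Subgroup.commutator_le_self V) with h | h
    · exact absurd h hab
    · exact h
  have hVb : V ≠ ⊥ := by
    intro h
    rw [← hperf] at h
    exact hab h
  obtain ⟨L1, -, hL1, hL2, hL3⟩ := exists_max_nor V ⊥ (nor_of_normal V inferInstance) bot_le
    hVb.symm
  have hNM1 : NM V L1 := ⟨hL1.le, hL2, fun h => hL1.not_ge (by rwa [hperf] at h), hL3⟩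
  have hphi : PhiT V = ⊥ := by
    have h1 : (PhiT V).Normal := normal_of_nor (phi_nor none (nor_of_normal ⊤ hVn))
    rcases hVmin _ h1 (phiT_le V) with h | h
    · exact h
    · exfalso
      apply hL1.not_ge
      rw [← h]
      exact inf_le_right.trans (sInf_le hNM1)
  set m := ({N : Subgroup Q | NM V N}).ncard with hm
  have hmk := count_nm S V hVn hVS hcore hphi
  rw [← hm, ← hkdef] at hmk
  set l := Nat.log 2 k with hl
  have hl8 : 8 ≤ l := Nat.le_log_of_pow_le (by norm_num) (by norm_num; exact hk)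
  have hk2 : k < 2 ^ (l + 1) := Nat.lt_pow_succ_log_self (by norm_num) k
  have hm2 : m < 2 * l + 2 := by
    have h1 : 2 ^ m < 2 ^ (2 * l + 2) := by
      calc 2 ^ m ≤ k ^ 2 := hmk
        _ < (2 ^ (l + 1)) ^ 2 := Nat.pow_lt_pow_left hk2 (by norm_num)
        _ = 2 ^ (2 * l + 2) := by rw [← pow_mul]; congr 1; ring
    exact (Nat.pow_lt_pow_iff_right (by norm_num)).1 h1
  have hm3 := log_small hl8 hm2
  have hlogm : Nat.log 2 m ≤ l / 2 := by
    rcases Nat.eq_zero_or_pos m with h | h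
    · rw [h]; simp
    · have := Nat.log_lt_of_lt_pow (by omega) hm3
      omega
  have hmk' : m < k := by
    have h1 : 2 ^ (l / 2 + 1) ≤ 2 ^ l := Nat.pow_le_pow_right (by norm_num) (by omega)
    have h2 : 2 ^ l ≤ k := Nat.pow_log_le_self 2 (by omega)
    omega
  set n1 := C * Nat.log 2 m with hn1
  have hnor : ∀ N, NM V N → Nor (L n1) N := by
    intro N hN
    rw [nor_iff_normalizer]
    have h1 := index_normalizer V hVn N hN
    rw [← hm] at h1
    exact (sl.anti (Nat.mul_le_mul_left C (Nat.log_mono_right h1))).trans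
      (sl.ih _ (by omega))
  have hcen : ∀ N, (hN : NM V N) → L (n1 + B * B) ≤ cen (L n1) N V (hnor N hN) := by
    intro N hN
    refine sl.triv n1 (B * B) _ (cen_nor (hnor N hN) (nor_of_normal _ hVn)) ?_
    refine lt_of_le_of_lt (cen_relIndex V N (L n1) hVn hN (hnor N hN) B (hcls N hN)) ?_
    calc B ^ B ≤ (2 ^ B) ^ B := Nat.pow_le_pow_left (Nat.lt_two_pow_self).le B
      _ = 2 ^ (B * B) := (pow_mul 2 B B).symm
      _ < 2 ^ (B * B + 1) := Nat.pow_lt_pow_right (by norm_num) (by omega)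
  have hcent : L (n1 + B * B) ≤ Subgroup.centralizer (V : Set Q) := by
    intro x hx
    rw [Subgroup.mem_centralizer_iff]
    intro v hv
    have h1 : ⁅x, v⁆ ∈ PhiT V := by
      refine ⟨?_, Subgroup.mem_sInf.2 fun N hN => (hcen N hN hx).2 v hv⟩
      rw [commutatorElement_def]
      exact V.mul_mem (hVn.conj_mem v hv x) (V.inv_mem hv)
    rw [hphi, Subgroup.mem_bot, commutatorElement_eq_one_iff_mul_comm] at h1
    exact h1.symm
  have hcard : Nat.card (Subgroup.centralizer (V : Set Q)) ≤ k :=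
    card_le_index _ S (cent_inf S V _ hVS hcore (centralizer_nor V hVn) le_rfl)
  have hbot : L (n1 + B * B + l) ≤ ⊥ := by
    refine sl.triv (n1 + B * B) l ⊥ (nor_of_normal _ inferInstance) ?_
    rw [Subgroup.relIndex_bot_left]
    refine lt_of_le_of_lt ?_ hk2
    refine le_trans ?_ hcard
    exact Nat.card_le_card_of_injective _ (Subgroup.inclusion_injective hcent)
  rw [eq_bot_iff]
  refine (sl.anti ?_).trans hbot
  have h1 : 2 * Nat.log 2 m ≤ l := by omega
  have h2 : 2 * n1 ≤ C * l := by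
    rw [hn1]
    calc 2 * (C * Nat.log 2 m) = C * (2 * Nat.log 2 m) := by ring
      _ ≤ C * l := Nat.mul_le_mul_left C h1
  have h3 : (2 + 2 * (B * B)) * l ≤ C * l := Nat.mul_le_mul_right l hC
  have h4 : 2 * (B * B) ≤ 2 * (B * B) * l := Nat.le_mul_of_pos_right _ (by omega)
  have h5 : (2 + 2 * (B * B)) * l = 2 * l + 2 * (B * B) * l := by ring
  omega

end Pool.Agent.Helper39.BC
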