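import Pool.Agent.Helper39.BC.LemmaP

set_option autoImplicit false

/-!
Normal subgroups and intersections of maximal normal subgroups with non-abelian quotient
(project BC, MP_98e9ed_al).
-/

namespace Pool.Agent.Helper39.BC

open Subgroup

variable {V : Type*} [Group V] {ι : Type*} [Fintype ι] [DecidableEq ι] {N : ι → Subgroup V}

theorem T_insert_le (hN : ∀ i, NAMax (N i)) (hinj : Function.Injective N) (I : Finset ι) (i : ι) :
    T N (insert i I) ≤ T N {i} ⊔ T N I := by
  intro x hx
  have hn := (hN i).normal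
  have hTn := T_normal (N := N) hN {i}
  have hTI := T_normal (N := N) hN I
  have h7 : T N {i} ⊔ N i = ⊤ :=
    sup_top (hN i) _ (T_normal hN _) (not_T_le hN hinj (Finset.mem_singleton_self _))
  have h8 : x ∈ T N {i} ⊔ N i := by rw [h7]; trivial
  rw [mem_sup_of_normal_right] at h8
  obtain ⟨a, ha, n, hn', rfl⟩ := h8
  rw [mem_sup_of_normal_right]
  refine ⟨a, ha, n, ?_, rfl⟩
  refine mem_T.2 fun j hj => ?_
  rcases eq_or_ne j i with rfl | hji
  · exact hn'
  · have h9 : a * n ∈ N j := mem_T.1 hx j (by simp [hji, hj])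
    have h10 : a ∈ N j := mem_T.1 ha j (by simpa using hji)
    exact (Subgroup.mul_mem_cancel_left _ h10).1 h9

theorem T_singleton_le (hN : ∀ i, NAMax (N i)) (K : Subgroup V) (hK : K.Normal) (i : ι)
    (hKi : ¬ K ≤ N i) (hinj : Function.Injective N) : T N {i} ≤ K ⊔ T N ∅ := by
  intro x hx
  have hn := (hN i).normal
  have hTn := T_normal (N := N) hN {i}
  have hTe := T_normal (N := N) hN ∅
  have h1 : ¬ (T N {i} ⊓ K ≤ N i) := by
    intro h
    rcases prime (hN i) _ _ hTn hK h with h | h
    · exact not_T_le hN hinj (Finset.mem_singleton_self _) h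
    · exact hKi h
  have h2 : (T N {i} ⊓ K) ⊔ N i = ⊤ := by
    have : (T N {i} ⊓ K).Normal := inferInstance
    exact sup_top (hN i) _ this h1
  have h3 : x ∈ (T N {i} ⊓ K) ⊔ N i := by rw [h2]; trivial
  rw [mem_sup_of_normal_right] at h3
  obtain ⟨a, ha, n, hn', rfl⟩ := h3
  rw [mem_sup_of_normal_right]
  refine ⟨a, ha.2, n, mem_T.2 fun j _ => ?_, rfl⟩
  rcases eq_or_ne j i with rfl | hji
  · exact hn'
  · have h9 : a * n ∈ N j := mem_T.1 hx j (by simpa using hji)
    have h10 : a ∈ N j := mem_T.1 ha.1 j (by simpa using hji)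
    exact (Subgroup.mul_mem_cancel_left _ h10).1 h9

/-- normal subgroups are subproducts modulo the intersection of all `N i`. -/
theorem T_le_sup (hN : ∀ i, NAMax (N i)) (hinj : Function.Injective N) (K : Subgroup V)
    (hK : K.Normal) (I : Finset ι) (hI : ∀ i ∈ I, ¬ K ≤ N i) : T N I ≤ K ⊔ T N ∅ := by
  induction I using Finset.induction_on with
  | empty => exact le_sup_right
  | insert i I hi ih =>
    refine (T_insert_le hN hinj I i).trans (sup_le ?_ (ih fun j hj => hI j
      (Finset.mem_insert_of_mem hj)))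
    exact T_singleton_le hN K hK i (hI i (Finset.mem_insert_self _ _)) hinj

theorem T_empty_eq : T N ∅ = ⨅ i, N i := by
  ext x
  simp [mem_T, Subgroup.mem_iInf]

/-- The intersection of the `N i` that contain `K` is `K` times the intersection of all `N i`. -/
theorem iInf_eq_sup (hN : ∀ i, NAMax (N i)) (hinj : Function.Injective N) (K : Subgroup V)
    (hK : K.Normal) : (⨅ (i : ι) (_ : K ≤ N i), N i) = K ⊔ ⨅ i, N i := by
  classical
  apply le_antisymm
  · have h1 := T_le_sup hN hinj K hK (Finset.univ.filter fun i => ¬ K ≤ N i)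
      (fun i hi => (Finset.mem_filter.1 hi).2)
    rw [T_empty_eq] at h1
    refine le_trans ?_ h1
    intro x hx
    refine mem_T.2 fun i hi => ?_
    have h2 : K ≤ N i := by
      by_contra hcon
      exact hi (Finset.mem_filter.2 ⟨Finset.mem_univ _, hcon⟩)
    rw [Subgroup.mem_iInf] at hx
    have h3 := hx i
    rw [Subgroup.mem_iInf] at h3
    exact h3 h2
  · exact sup_le (le_iInf₂ fun i hi => hi) (le_iInf₂ fun i _ => iInf_le _ i)

/-- `V` modulo the intersection has at least `2 ^ card ι` elements. -/
theorem card_le_log [Finite V] (hN : ∀ i, NAMax (N i)) (hinj : Function.Injective N) :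
    4 ^ Fintype.card ι ≤ Nat.card V := by
  have h := card_T hN hinj Finset.univ
  rw [Finset.card_univ] at h
  refine h.trans ?_
  exact Nat.card_le_card_of_injective _ Subtype.val_injective

end Pool.Agent.Helper39.BC
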