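import Pool.Agent.Helper94.BC.Defs

set_option autoImplicit false

/-!
The series `PsiS` of the project BC (MP_98e9ed_al): `Psi H` is the intersection of all normal
subgroups of `H` with abelian or (non-abelian) simple quotient.
-/

open scoped Pointwise commutatorElement

namespace Pool.Agent.Helper39.BC

open Pool.Agent.Helper94.BC

section

variable {G : Type} [Group G]

/-- The intersection of the commutator subgroup and of `PhiT`. -/
def Psi (H : Subgroup G) : Subgroup G := ⁅H, H⁆ ⊓ PhiT H

/-- The iterated series. -/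
def PsiS : ℕ → Subgroup G → Subgroup G
  | 0, H => H
  | n + 1, H => PsiS n (Psi H)

theorem psi_le (H : Subgroup G) : Psi H ≤ H := inf_le_right.trans (phiT_le H)

theorem psi_le_comm (H : Subgroup G) : Psi H ≤ ⁅H, H⁆ := inf_le_left

theorem psi_le_nm {H N : Subgroup G} (h : NM H N) : Psi H ≤ N :=
  inf_le_right.trans (inf_le_right.trans (sInf_le h))

theorem psiS_le (n : ℕ) (H : Subgroup G) : PsiS n H ≤ H := by
  induction n generalizing H with
  | zero => exact le_refl H
  | succ n ih => exact (ih _).trans (psi_le H)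

theorem psiS_zero (H : Subgroup G) : PsiS 0 H = H := rfl

theorem psiS_succ (n : ℕ) (H : Subgroup G) : PsiS (n + 1) H = PsiS n (Psi H) := rfl

theorem psiS_one (H : Subgroup G) : PsiS 1 H = Psi H := rfl

theorem psiS_add (m n : ℕ) (H : Subgroup G) : PsiS (m + n) H = PsiS n (PsiS m H) := by
  induction m generalizing H with
  | zero => rw [Nat.zero_add]; rfl
  | succ m ih =>
    rw [Nat.succ_add]
    exact ih _

theorem psiS_anti {m n : ℕ} (h : m ≤ n) (H : Subgroup G) : PsiS n H ≤ PsiS m H := by
  obtain ⟨k, rfl⟩ := Nat.exists_eq_add_of_le h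
  rw [psiS_add]
  exact psiS_le _ _

theorem nor_comm {K A C : Subgroup G} (hA : Nor K A) (hC : Nor K C) : Nor K ⁅A, C⁆ := by
  rw [nor_iff_map] at hA hC ⊢
  intro g hg
  rw [Subgroup.map_commutator, hA g hg, hC g hg]

theorem psi_nor {K H : Subgroup G} (h : Nor K H) : Nor K (Psi H) :=
  nor_inf (nor_comm h h) (phi_nor none h)

theorem psiS_nor (n : ℕ) {K H : Subgroup G} (h : Nor K H) : Nor K (PsiS n H) := by
  induction n generalizing H with
  | zero => exact h
  | succ n ih => exact ih (psi_nor h)

theorem psiS_normal (n : ℕ) : (PsiS n (⊤ : Subgroup G)).Normal :=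
  normal_of_nor (psiS_nor n (nor_self ⊤))

theorem nor_iff_normalizer {K A : Subgroup G} : Nor K A ↔ K ≤ Subgroup.normalizer (A : Set G) := by
  constructor
  · intro h g hg
    rw [Subgroup.mem_normalizer_iff]
    intro n
    refine ⟨fun hn => h g hg n hn, fun hn => ?_⟩
    have h1 := h g⁻¹ (K.inv_mem hg) _ hn
    have e : g⁻¹ * (g * n * g⁻¹) * g⁻¹⁻¹ = n := by group
    rwa [e] at h1
  · intro h g hg n hn
    exact (Subgroup.mem_normalizer_iff.1 (h hg) n).1 hn

theorem nor_sup_left {K L A : Subgroup G} (h1 : Nor K A) (h2 : Nor L A) : Nor (K ⊔ L) A := by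
  rw [nor_iff_normalizer] at *
  exact sup_le h1 h2

end

section transfer

variable {A G : Type} [Group A] [Group G]

theorem nor_map_hom (f : A →* G) {K N : Subgroup A} (h : Nor K N) : Nor (K.map f) (N.map f) := by
  rintro _ ⟨x, hx, rfl⟩ _ ⟨n, hn, rfl⟩
  exact ⟨x * n * x⁻¹, h x hx n hn, by simp⟩

theorem nor_comap_hom (f : A →* G) {K N : Subgroup G} (h : Nor K N) :
    Nor (K.comap f) (N.comap f) := by
  intro x hx n hn
  rw [Subgroup.mem_comap] at *
  rw [map_mul, map_mul, map_inv]
  exact h _ hx _ hn

theorem comap_map_inj (f : A →* G) (hf : Function.Injective f) (K : Subgroup A) :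
    (K.map f).comap f = K := Subgroup.comap_map_eq_self_of_injective hf K

theorem nm_map_inj (f : A →* G) (hf : Function.Injective f) {K N : Subgroup A} (h : NM K N) :
    NM (K.map f) (N.map f) where
  le := Subgroup.map_mono h.le
  nor := nor_map_hom f h.nor
  nab := by
    intro h1
    apply h.nab
    rw [← Subgroup.map_commutator] at h1
    have h2 := Subgroup.comap_mono (f := f) h1
    rwa [comap_map_inj f hf, comap_map_inj f hf] at h2
  max := by
    intro L h1 h2 h3
    have h0 : (L.comap f).map f = L := by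
      refine Subgroup.map_comap_eq_self ?_
      exact h2.trans (Subgroup.map_le_range f K)
    have e1 := Subgroup.comap_mono (f := f) h1
    have e2 := Subgroup.comap_mono (f := f) h2
    have e3 := nor_comap_hom f h3
    rw [comap_map_inj f hf] at e1 e2 e3
    rcases h.max (L.comap f) e1 e2 e3 with h4 | h4
    · left
      rw [← h4, h0]
    · right
      rw [← h4, h0]

theorem nm_comap_inj (f : A →* G) (hf : Function.Injective f) {K : Subgroup A} {N : Subgroup G}
    (h : NM (K.map f) N) : NM K (N.comap f) := by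
  have h0 : (N.comap f).map f = N :=
    Subgroup.map_comap_eq_self (h.le.trans (Subgroup.map_le_range f K))
  refine ⟨?_, ?_, ?_, ?_⟩
  · have := Subgroup.comap_mono (f := f) h.le
    rwa [comap_map_inj f hf] at this
  · have := nor_comap_hom f h.nor
    rwa [comap_map_inj f hf] at this
  · intro h1
    apply h.nab
    rw [← Subgroup.map_commutator]
    have h2 := Subgroup.map_mono (f := f) h1
    rwa [h0] at h2
  · intro L h1 h2 h3
    have e1 : N ≤ L.map f := by
      rw [← h0]
      exact Subgroup.map_mono h1
    rcases h.max (L.map f) e1 (Subgroup.map_mono h2) (nor_map_hom f h3) with h4 | h4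
    · left
      rw [← h4, comap_map_inj f hf]
    · right
      have := congrArg (Subgroup.comap f) h4
      rwa [comap_map_inj f hf, comap_map_inj f hf] at this

theorem psi_map_inj (f : A →* G) (hf : Function.Injective f) (K : Subgroup A) :
    Psi (K.map f) = (Psi K).map f := by
  apply le_antisymm
  · intro x hx
    have h1 := hx.1
    rw [← Subgroup.map_commutator] at h1
    obtain ⟨y, hy, rfl⟩ := h1
    have hyK : y ∈ K := Subgroup.commutator_le_self K hy
    refine ⟨y, ⟨hy, hyK, ?_⟩, rfl⟩
    refine Subgroup.mem_sInf.2 ?_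
    intro N hN
    have h2 := psi_le_nm (nm_map_inj f hf hN) hx
    obtain ⟨z, hz, hzy⟩ := h2
    rwa [← hf hzy]
  · rintro _ ⟨y, hy, rfl⟩
    refine ⟨?_, ⟨y, psi_le K hy, rfl⟩, ?_⟩
    · rw [SetLike.mem_coe, ← Subgroup.map_commutator]
      exact ⟨y, hy.1, rfl⟩
    · refine Subgroup.mem_sInf.2 ?_
      intro N hN
      exact psi_le_nm (nm_comap_inj f hf hN) hy

theorem psiS_map_inj (f : A →* G) (hf : Function.Injective f) (n : ℕ) (K : Subgroup A) :
    PsiS n (K.map f) = (PsiS n K).map f := by
  induction n generalizing K with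
  | zero => rfl
  | succ n ih =>
    rw [psiS_succ, psiS_succ, psi_map_inj f hf, ih]

theorem cls_inj (f : A →* G) (hf : Function.Injective f) {B : ℕ} (h : Cls B G) : Cls B A := by
  intro K N hKN
  have h1 := h _ _ (nm_map_inj f hf hKN)
  rwa [Subgroup.relIndex_map_map_of_injective _ _ hf] at h1

end transfer

end Pool.Agent.Helper39.BC
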