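import Pool.Agent.Helper39.BC.NonAb

set_option autoImplicit false

/-!
The series `PsiS` reaches every subgroup of index `k` after `C log k` steps
(project BC, MP_98e9ed_al).
-/

open scoped Pointwise commutatorElement

namespace Pool.Agent.Helper39.BC

open Pool.Agent.Helper94.BC

section surj

variable {A G : Type} [Group A] [Group G]

theorem nm_comap_surj (f : A →* G) (hf : Function.Surjective f) {K N : Subgroup G}
    (h : NM K N) : NM (K.comap f) (N.comap f) := by
  have hm : ∀ L : Subgroup G, (L.comap f).map f = L := fun L =>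
    Subgroup.map_comap_eq_self_of_surjective hf L
  refine ⟨Subgroup.comap_mono h.le, nor_comap_hom f h.nor, ?_, ?_⟩
  · intro h1
    apply h.nab
    have h2 := Subgroup.map_mono (f := f) h1
    rwa [Subgroup.map_commutator, hm, hm] at h2
  · intro L h1 h2 h3
    have hker : f.ker ≤ L := by
      refine le_trans ?_ h1
      intro x hx
      rw [Subgroup.mem_comap, MonoidHom.mem_ker.1 hx]
      exact N.one_mem
    have hL : (L.map f).comap f = L := Subgroup.comap_map_eq_self hker
    have e1 := Subgroup.map_mono (f := f) h1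
    have e2 := Subgroup.map_mono (f := f) h2
    have e3 := nor_map_hom f h3
    rw [hm] at e1 e2 e3
    rcases h.max _ e1 e2 e3 with h4 | h4
    · left
      rw [← hL, h4]
    · right
      rw [← hL, h4]

theorem cls_surj (f : A →* G) (hf : Function.Surjective f) {B : ℕ} (h : Cls B A) : Cls B G := by
  intro K N hKN
  have h1 := h _ _ (nm_comap_surj f hf hKN)
  rwa [Subgroup.relIndex_comap, Subgroup.map_comap_eq_self_of_surjective hf] at h1

end surj

theorem log_add_le {a b k : ℕ} (ha : a ≠ 0) (hb : b ≠ 0) (h : a * b ≤ k) :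
    Nat.log 2 a + Nat.log 2 b ≤ Nat.log 2 k := by
  apply Nat.le_log_of_pow_le (by norm_num)
  rw [pow_add]
  exact (Nat.mul_le_mul (Nat.pow_log_le_self 2 ha) (Nat.pow_log_le_self 2 hb)).trans h

theorem psiS_subtype {G : Type} [Group G] (L Y : Subgroup G) (n : ℕ)
    (h : PsiS n (⊤ : Subgroup L) ≤ Y.subgroupOf L) : PsiS n L ≤ Y := by
  have h1 := psiS_map_inj L.subtype L.subtype_injective n ⊤
  rw [← MonoidHom.range_eq_map, Subgroup.range_subtype] at h1
  rw [h1]
  rintro _ ⟨x, hx, rfl⟩
  exact h hx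

theorem psiS_succ' {G : Type} [Group G] (n : ℕ) (H : Subgroup G) :
    PsiS (n + 1) H = Psi (PsiS n H) := by
  rw [psiS_add]
  rfl

/-- The maximal case. -/
theorem rounds_max (B C k : ℕ) (hC : 2048 + 2 + 2 * (B * B) ≤ C) (P : Type) [Group P] [Finite P]
    (hP : Cls B P) (Y : Subgroup P) (hk : Y.index = k) (hk256 : 256 ≤ k)
    (hmax : ∀ Z : Subgroup P, Y ≤ Z → Z = Y ∨ Z = ⊤)
    (ih : ∀ E : Subgroup P, E.index < k → PsiS (C * Nat.log 2 E.index) ⊤ ≤ E)
    (Q : Type) [Group Q] [Finite Q] (π : P →* Q) (hsurj : Function.Surjective π)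
    (hker : π.ker = Y.normalCore) :
    PsiS (C * Nat.log 2 k) ⊤ ≤ Y := by
  set S := Y.map π with hS
  have hYS : S.comap π = Y := Subgroup.comap_map_eq_self (by
    rw [hker]
    exact Y.normalCore_le)
  have hSk : S.index = k := by
    rw [← hk, ← hYS, Subgroup.index_comap_of_surjective _ hsurj]
  have hcm : ∀ L : Subgroup Q, (L.comap π).map π = L := fun L =>
    Subgroup.map_comap_eq_self_of_surjective hsurj L
  have hcore : ∀ K : Subgroup Q, K.Normal → K ≤ S → K = ⊥ := by
    intro K hK hKS
    have h1 : (K.comap π).Normal := hK.comap π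
    have h2 : K.comap π ≤ Y := by
      rw [← hYS]
      exact Subgroup.comap_mono hKS
    have h3 : K.comap π ≤ Y.normalCore := Subgroup.normal_le_normalCore.2 h2
    have h4 : K ≤ ⊥ := by
      rw [← hcm K]
      rw [← hker] at h3
      rintro _ ⟨x, hx, rfl⟩
      rw [Subgroup.mem_bot]
      exact MonoidHom.mem_ker.1 (h3 hx)
    exact le_bot_iff.1 h4
  have hStop : S ≠ ⊤ := by
    intro h
    rw [h, Subgroup.index_top] at hSk
    omega
  have hQ : (⊤ : Subgroup Q) ≠ ⊥ := by
    intro h
    apply hStop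
    rw [eq_top_iff, h]
    exact bot_le
  -- a minimal normal subgroup
  obtain ⟨V, ⟨hVn, hVb⟩, hVmin'⟩ := (Set.toFinite {V : Subgroup Q |
    V.Normal ∧ V ≠ ⊥}).exists_minimal ⟨⊤, inferInstance, hQ⟩
  have hVmin : ∀ W : Subgroup Q, W.Normal → W ≤ V → W = ⊥ ∨ W = V := by
    intro W hW hWV
    by_cases h : W = ⊥
    · exact Or.inl h
    · exact Or.inr (le_antisymm hWV (hVmin' ⟨hW, h⟩ hWV))
  have hVS : V ⊔ S = ⊤ := by
    rcases hmax ((V ⊔ S).comap π) (by
      rw [← hYS]
      exact Subgroup.comap_mono le_sup_right) with h | h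
    · exfalso
      apply hVb
      refine hcore V hVn ?_
      have h1 : V ⊔ S = S := by rw [← hcm (V ⊔ S), h]
      rw [← h1]
      exact le_sup_left
    · rw [← hcm (V ⊔ S), h, Subgroup.map_top_of_surjective π hsurj]
  have sl : SL (fun n => (PsiS n (⊤ : Subgroup P)).map π) S.index C := by
    refine ⟨fun h => Subgroup.map_mono (psiS_anti h _), fun n => ?_, fun n m D hD hidx => ?_,
      fun E hE => ?_⟩
    · rw [psiS_succ', ← Subgroup.map_commutator]
      exact Subgroup.map_mono (psi_le_comm _)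
    · rw [psiS_add, Subgroup.map_le_iff_le_comap]
      refine psiS_triv m _ _ ?_ ?_
      · intro x hx y hy
        rw [Subgroup.mem_comap] at hy ⊢
        rw [map_mul, map_mul, map_inv]
        exact hD _ ⟨x, hx, rfl⟩ _ hy
      · rwa [Subgroup.relIndex_comap]
    · rw [Subgroup.map_le_iff_le_comap]
      have h1 := ih (E.comap π) (by
        rw [Subgroup.index_comap_of_surjective _ hsurj, ← hSk]
        exact hE)
      rwa [Subgroup.index_comap_of_surjective _ hsurj] at h1
  have hfin : (PsiS (C * Nat.log 2 k) (⊤ : Subgroup P)).map π = ⊥ := by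
    rw [← hSk]
    by_cases hab : ⁅V, V⁆ = ⊥
    · refine abelian_case S V hVn hVb hVmin hVS hcore ?_ C (by omega) _ sl
      intro x hx y hy
      have h1 : ⁅x, y⁆ ∈ ⁅V, V⁆ := Subgroup.commutator_mem_commutator hx hy
      rw [hab, Subgroup.mem_bot, commutatorElement_eq_one_iff_mul_comm] at h1
      exact h1
    · exact nonabelian_case S V hVn hVmin hVS hcore hab B
        (fun N hN => cls_surj π hsurj hP V N hN) C (by omega) (by omega) _ sl
  have h1 : PsiS (C * Nat.log 2 k) (⊤ : Subgroup P) ≤ π.ker := by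
    intro x hx
    rw [MonoidHom.mem_ker, ← Subgroup.mem_bot, ← hfin]
    exact ⟨x, hx, rfl⟩
  rw [hker] at h1
  exact h1.trans Y.normalCore_le

theorem rounds_top (B C : ℕ) (hC : 2048 + 2 + 2 * (B * B) ≤ C) (k : ℕ) :
    ∀ (P : Type) [Group P] [Finite P], Cls B P → ∀ Y : Subgroup P, Y.index = k →
      PsiS (C * Nat.log 2 k) ⊤ ≤ Y := by
  induction k using Nat.strong_induction_on with
  | _ k ih =>
    intro P _ _ hP Y hk
    by_cases hY : Y = ⊤
    · rw [hY]
      exact le_top
    have hk0 : k ≠ 0 := by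
      rw [← hk]
      exact Subgroup.index_ne_zero_of_finite
    have hk1 : k ≠ 1 := fun h => hY (Subgroup.index_eq_one.1 (by rw [hk, h]))
    have hlog : 1 ≤ Nat.log 2 k := Nat.le_log_of_pow_le (by norm_num) (by omega)
    have ihP : ∀ E : Subgroup P, E.index < k → PsiS (C * Nat.log 2 E.index) ⊤ ≤ E :=
      fun E hE => ih _ hE P hP E rfl
    rcases Nat.lt_or_ge k 256 with hk256 | hk256
    · refine psiS_core Y _ ?_
      rw [hk]
      have h1 : C ≤ C * Nat.log 2 k := Nat.le_mul_of_pos_right _ (by omega)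
      calc k.factorial ≤ k ^ k := Nat.factorial_le_pow k
        _ ≤ 256 ^ k := Nat.pow_le_pow_left (by omega) k
        _ ≤ 256 ^ 256 := Nat.pow_le_pow_right (by norm_num) (by omega)
        _ = (2 ^ 8) ^ 256 := congrArg (fun x : ℕ => x ^ 256) (by norm_num)
        _ = 2 ^ (8 * 256) := (pow_mul 2 8 256).symm
        _ < 2 ^ (C * Nat.log 2 k + 1) := Nat.pow_lt_pow_right (by norm_num) (by omega)
    · by_cases hZ : ∃ Z : Subgroup P, Y ≤ Z ∧ Z ≠ Y ∧ Z ≠ ⊤
      · obtain ⟨Z, hYZ, hZY, hZT⟩ := hZ
        have hmul := Subgroup.relIndex_mul_index hYZ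
        rw [hk] at hmul
        have hr0 : Y.relIndex Z ≠ 0 := Subgroup.index_ne_zero_of_finite
        have hr1 : Y.relIndex Z ≠ 1 := fun h =>
          hZY (le_antisymm (Subgroup.relIndex_eq_one.1 h) hYZ)
        have hi0 : Z.index ≠ 0 := Subgroup.index_ne_zero_of_finite
        have hi1 : Z.index ≠ 1 := fun h => hZT (Subgroup.index_eq_one.1 h)
        have hZk : Z.index < k := by
          rw [← hmul]
          calc Z.index < 2 * Z.index := by omega
            _ ≤ Y.relIndex Z * Z.index := Nat.mul_le_mul_right _ (by omega)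
        have hrk : Y.relIndex Z < k := by
          rw [← hmul]
          calc Y.relIndex Z < Y.relIndex Z * 2 := by omega
            _ ≤ Y.relIndex Z * Z.index := Nat.mul_le_mul_left _ (by omega)
        set L := PsiS (C * Nat.log 2 Z.index) (⊤ : Subgroup P) with hL
        have hLZ : L ≤ Z := ihP Z hZk
        have hLr : Y.relIndex L ≤ Y.relIndex Z := Subgroup.relIndex_le_of_le_right hLZ hr0
        have hLr0 : Y.relIndex L ≠ 0 := Subgroup.index_ne_zero_of_finite
        have h1 := ih (Y.relIndex L) (by omega) L (cls_inj L.subtype L.subtype_injective hP)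
          (Y.subgroupOf L) rfl
        have h2 := psiS_subtype L Y _ h1
        have h3 : PsiS (C * Nat.log 2 Z.index + C * Nat.log 2 (Y.relIndex L)) (⊤ : Subgroup P) ≤
            Y := by
          rw [psiS_add]
          exact h2
        refine (psiS_anti ?_ _).trans h3
        rw [← mul_add]
        refine Nat.mul_le_mul_left C (log_add_le hi0 hLr0 ?_)
        rw [← hmul, mul_comm (Y.relIndex Z)]
        exact Nat.mul_le_mul_left _ hLr
      · push Not at hZ
        refine rounds_max B C k hC P hP Y hk hk256 (fun Z hYZ => ?_) ihP (P ⧸ Y.normalCore)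
          (QuotientGroup.mk' _) (QuotientGroup.mk'_surjective _) (QuotientGroup.ker_mk' _)
        by_cases h : Z = Y
        · exact Or.inl h
        · exact Or.inr (hZ Z hYZ h)

/-- **Theorem `rounds`.** In a finite group whose non-abelian simple sections have order at most
`B`, the series `PsiS` of `H` reaches every subgroup of index `k` after `C log k` steps. -/
theorem rounds (B : ℕ) : ∃ C : ℕ, 1 ≤ C ∧ ∀ (G : Type) [Group G] [Finite G], Cls B G →
    ∀ H Y : Subgroup G, PsiS (C * Nat.log 2 (Y.relIndex H)) H ≤ Y := by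
  refine ⟨2048 + 2 + 2 * (B * B), by omega, fun G _ _ hG H Y => ?_⟩
  exact psiS_subtype H Y _ (rounds_top B _ le_rfl _ H (cls_inj H.subtype H.subtype_injective hG)
    (Y.subgroupOf H) rfl)

/-- Faithful version: a subgroup of index at most `k` with trivial core. -/
theorem rounds_bot (B : ℕ) : ∃ C : ℕ, 1 ≤ C ∧ ∀ (P : Type) [Group P] [Finite P], Cls B P →
    ∀ Y : Subgroup P, Y.normalCore = ⊥ → ∀ n : ℕ, C * Nat.log 2 Y.index ≤ n →
      PsiS n (⊤ : Subgroup P) = ⊥ := by
  refine ⟨2048 + 2 + 2 * (B * B), by omega, fun P _ _ hP Y hY n hn => ?_⟩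
  have h1 := rounds_top B _ le_rfl _ P hP Y rfl
  have h2 := psiS_normal (G := P) ((2048 + 2 + 2 * (B * B)) * Nat.log 2 Y.index)
  have h3 := Subgroup.normal_le_normalCore.2 h1
  rw [hY, le_bot_iff] at h3
  rw [eq_bot_iff, ← h3]
  exact psiS_anti hn _

/-- The core of a subgroup `Y` of index at most `k`, through a homomorphism. -/
theorem rounds_core (B : ℕ) : ∃ C : ℕ, 1 ≤ C ∧ ∀ (P : Type) [Group P] [Finite P], Cls B P →
    ∀ Y : Subgroup P, PsiS (C * Nat.log 2 Y.index) (⊤ : Subgroup P) ≤ Y.normalCore := by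
  refine ⟨2048 + 2 + 2 * (B * B), by omega, fun P _ _ hP Y => ?_⟩
  have h1 := rounds_top B _ le_rfl _ P hP Y rfl
  have h2 := psiS_normal (G := P) ((2048 + 2 + 2 * (B * B)) * Nat.log 2 Y.index)
  exact Subgroup.normal_le_normalCore.2 h1

end Pool.Agent.Helper39.BC
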