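import Pool.Agent.Helper39.BC.Triv
import Pool.Agent.Helper39.BC.LemmaP

set_option autoImplicit false
set_option linter.unusedSectionVars false

/-!
Core free maximal subgroups (project BC, MP_98e9ed_al).
-/

open scoped Pointwise commutatorElement

namespace Pool.Agent.Helper39.BC

open Pool.Agent.Helper94.BC

section count

variable {Q : Type} [Group Q] [Finite Q]

theorem index_le_ncard (E : Subgroup Q) {α : Type*} (f : Q → α) (T : Set α) (hT : T.Finite)
    (hf : ∀ g, f g ∈ T) (hE : ∀ g h, f g = f h → g⁻¹ * h ∈ E) : E.index ≤ T.ncard := by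
  have hinj : Function.Injective fun q : Q ⧸ E => f q.out := by
    intro q q' h
    have h1 := hE _ _ h
    rw [← QuotientGroup.eq, QuotientGroup.out_eq', QuotientGroup.out_eq'] at h1
    exact h1
  calc E.index = (Set.range fun q : Q ⧸ E => f q.out).ncard := by
        rw [← Set.image_univ, Set.ncard_image_of_injective _ hinj, Set.ncard_univ]
        rfl
    _ ≤ T.ncard := Set.ncard_le_ncard (by rintro _ ⟨q, rfl⟩; exact hf _) hT

theorem two_index_le_ncard (E : Subgroup Q) (f : Q → Q) (T : Set Q)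
    (hf : ∀ g, f g ∈ T) (hf' : ∀ g, (f g)⁻¹ ∈ T) (hne : ∀ g, f g ≠ (f g)⁻¹)
    (hE : ∀ g h, (f g = f h ∨ f g = (f h)⁻¹) → g⁻¹ * h ∈ E) : 2 * E.index ≤ T.ncard := by
  have hinj : Function.Injective fun q : (Q ⧸ E) × Bool =>
      bif q.2 then f q.1.out else (f q.1.out)⁻¹ := by
    rintro ⟨q, b⟩ ⟨q', b'⟩ h
    have h0 : f q.out = f q'.out ∨ f q.out = (f q'.out)⁻¹ := by
      cases b <;> cases b' <;> simp only [cond_false, cond_true] at h
      · exact Or.inl (inv_injective h)
      · exact Or.inr (by rw [← h, inv_inv])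
      · exact Or.inr h
      · exact Or.inl h
    have h1 := hE _ _ h0
    rw [← QuotientGroup.eq, QuotientGroup.out_eq', QuotientGroup.out_eq'] at h1
    subst h1
    cases b <;> cases b' <;> simp only [cond_false, cond_true] at h
    · rfl
    · exact absurd h.symm (hne _)
    · exact absurd h (hne _)
    · rfl
  calc 2 * E.index = Nat.card ((Q ⧸ E) × Bool) := by
        rw [Nat.card_prod, mul_comm]
        simp [Subgroup.index]
    _ = (Set.range fun q : (Q ⧸ E) × Bool =>
          bif q.2 then f q.1.out else (f q.1.out)⁻¹).ncard := by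
        rw [← Set.image_univ, Set.ncard_image_of_injective _ hinj, Set.ncard_univ]
    _ ≤ T.ncard := Set.ncard_le_ncard (by
        rintro _ ⟨⟨q, b⟩, rfl⟩
        cases b
        · exact hf' _
        · exact hf _) (Set.toFinite _)

theorem ncard_diff_one (V : Subgroup Q) : ((V : Set Q) \ {1}).ncard = Nat.card V - 1 := by
  rw [Set.ncard_sdiff_singleton_of_mem V.one_mem]
  rfl

/-- the elements that fix the pair `{v, v⁻¹}`. -/
def pairStab (v : Q) : Subgroup Q where
  carrier := {g | g * v * g⁻¹ = v ∨ g * v * g⁻¹ = v⁻¹}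
  mul_mem' := by
    rintro a b ha hb
    have e : a * b * v * (a * b)⁻¹ = a * (b * v * b⁻¹) * a⁻¹ := by group
    have e2 : a * v⁻¹ * a⁻¹ = (a * v * a⁻¹)⁻¹ := by group
    rw [Set.mem_ofPred_eq, e]
    rcases hb with hb | hb <;> rw [hb]
    · exact ha
    · rw [e2]
      rcases ha with ha | ha <;> rw [ha]
      · exact Or.inr rfl
      · exact Or.inl (inv_inv v)
  one_mem' := Or.inl (by group)
  inv_mem' := by
    rintro a ha
    rcases ha with ha | ha
    · left
      calc a⁻¹ * v * a⁻¹⁻¹ = a⁻¹ * (a * v * a⁻¹) * a := by rw [ha]; group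
        _ = v := by group
    · right
      calc a⁻¹ * v * a⁻¹⁻¹ = a⁻¹ * (a * v * a⁻¹)⁻¹ * a := by rw [ha, inv_inv]; group
        _ = v⁻¹ := by group

theorem mem_pairStab {v g : Q} : g ∈ pairStab v ↔ g * v * g⁻¹ = v ∨ g * v * g⁻¹ = v⁻¹ := Iff.rfl

theorem pairStab_comm {v x y : Q} (hx : x ∈ pairStab v) (hy : y ∈ pairStab v) :
    ⁅x, y⁆ * v * ⁅x, y⁆⁻¹ = v := by
  have key : ∀ x y : Q, x ∈ pairStab v → y ∈ pairStab v →
      x * y * v * (x * y)⁻¹ = y * x * v * (y * x)⁻¹ := by
    intro x y hx hy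
    have e : ∀ a b : Q, a * b * v * (a * b)⁻¹ = a * (b * v * b⁻¹) * a⁻¹ := fun a b => by group
    have e2 : ∀ a : Q, a * v⁻¹ * a⁻¹ = (a * v * a⁻¹)⁻¹ := fun a => by group
    rw [e, e]
    rcases hx with hx | hx <;> rcases hy with hy | hy <;> simp only [hx, hy, e2, inv_inv]
  have h := key x⁻¹ y⁻¹ ((pairStab v).inv_mem hx) ((pairStab v).inv_mem hy)
  have e3 : ⁅x, y⁆ * v * ⁅x, y⁆⁻¹ = x * y * (x⁻¹ * y⁻¹ * v * (x⁻¹ * y⁻¹)⁻¹) * (x * y)⁻¹ := by
    rw [commutatorElement_def]
    group
  rw [e3, h]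
  group

end count

section struct

variable {Q : Type} [Group Q] [Finite Q]

/-- the properties of the images of the series in a quotient. -/
structure SL (L : ℕ → Subgroup Q) (k C : ℕ) : Prop where
  anti : ∀ {m n : ℕ}, m ≤ n → L n ≤ L m
  comm : ∀ n, L (n + 1) ≤ ⁅L n, L n⁆
  triv : ∀ n m (D : Subgroup Q), Nor (L n) D → D.relIndex (L n) < 2 ^ (m + 1) → L (n + m) ≤ D
  ih : ∀ E : Subgroup Q, E.index < k → L (C * Nat.log 2 E.index) ≤ E

theorem centralizer_nor (V : Subgroup Q) (hV : V.Normal) :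
    (Subgroup.centralizer (V : Set Q)).Normal := by
  refine ⟨fun n hn g => ?_⟩
  rw [Subgroup.mem_centralizer_iff] at hn ⊢
  intro v hv
  have h1 := hn (g⁻¹ * v * g⁻¹⁻¹) (hV.conj_mem v hv g⁻¹)
  calc v * (g * n * g⁻¹) = g * (g⁻¹ * v * g⁻¹⁻¹ * n) * g⁻¹ := by group
    _ = g * (n * (g⁻¹ * v * g⁻¹⁻¹)) * g⁻¹ := by rw [h1]
    _ = g * n * g⁻¹ * v := by group

/-- a normal subgroup that centralises `V` meets `S` trivially. -/
theorem cent_inf (S V D : Subgroup Q) (hVS : V ⊔ S = ⊤)
    (hcore : ∀ K : Subgroup Q, K.Normal → K ≤ S → K = ⊥) (hD : D.Normal)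
    (hDV : D ≤ Subgroup.centralizer (V : Set Q)) : S ⊓ D = ⊥ := by
  refine hcore _ (normal_of_nor ?_) inf_le_left
  rw [← hVS]
  refine nor_sup_left ?_ (nor_inf (nor_self S) (nor_of_normal S hD))
  intro v hv x hx
  have h1 := (Subgroup.mem_centralizer_iff.1 (hDV hx.2)) v hv
  have e : v * x * v⁻¹ = x := by rw [h1]; group
  rw [e]
  exact hx

theorem log_half {j k : ℕ} (hj : j ≠ 0) (h : 2 * j ≤ k) : Nat.log 2 j + 1 ≤ Nat.log 2 k := by
  rw [← Nat.log_mul_base (by norm_num) hj]
  exact Nat.log_mono_right (by omega)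

theorem abelian_case (S V : Subgroup Q) (hVn : V.Normal) (hVb : V ≠ ⊥)
    (hVmin : ∀ W : Subgroup Q, W.Normal → W ≤ V → W = ⊥ ∨ W = V) (hVS : V ⊔ S = ⊤)
    (hcore : ∀ K : Subgroup Q, K.Normal → K ≤ S → K = ⊥) (hab : ∀ x ∈ V, ∀ y ∈ V, x * y = y * x)
    (C : ℕ) (hC : 2 ≤ C) (L : ℕ → Subgroup Q) (sl : SL L S.index C) :
    L (C * Nat.log 2 S.index) = ⊥ := by
  set k := S.index with hk
  have hVV : V ≤ Subgroup.centralizer (V : Set Q) := fun x hx =>
    Subgroup.mem_centralizer_iff.2 fun y hy => hab y hy x hx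
  have hcard : Nat.card V ≤ k := card_le_index V S (cent_inf S V V hVS hcore hVn hVV)
  have hV0 : 2 ≤ Nat.card V := by
    have h1 : Nat.card V ≠ 1 := fun h => hVb (Subgroup.card_eq_one.1 h)
    have h2 : 0 < Nat.card V := Nat.card_pos
    omega
  have hDV : Subgroup.centralizer (V : Set Q) ≤ V := by
    intro x hx
    have hx' : x ∈ V ⊔ S := by rw [hVS]; trivial
    rw [Subgroup.mem_sup_of_normal_left] at hx'
    obtain ⟨v, hv, s, hs, rfl⟩ := hx'
    have h1 : s ∈ Subgroup.centralizer (V : Set Q) :=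
      (Subgroup.mul_mem_cancel_left _ (hVV hv)).1 hx
    have h2 : s ∈ S ⊓ Subgroup.centralizer (V : Set Q) := ⟨hs, h1⟩
    rw [cent_inf S V _ hVS hcore (centralizer_nor V hVn) le_rfl, Subgroup.mem_bot] at h2
    rw [h2, mul_one]
    exact hv
  have hcomm : ⁅V, V⁆ = ⊥ := by
    rw [eq_bot_iff, Subgroup.commutator_le]
    intro x hx y hy
    rw [Subgroup.mem_bot, commutatorElement_eq_one_iff_mul_comm]
    exact hab x hx y hy
  have hcardT : ((V : Set Q) \ {1}).ncard = Nat.card V - 1 := ncard_diff_one V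
  have hconj : ∀ v ∈ V, v ≠ 1 → ∀ g : Q, g * v * g⁻¹ ∈ (V : Set Q) \ {1} := by
    intro v hv hv1 g
    refine ⟨hVn.conj_mem v hv g, fun h => hv1 ?_⟩
    rw [Set.mem_singleton_iff] at h
    have : v = g⁻¹ * (g * v * g⁻¹) * g := by group
    rw [this, h]
    group
  by_cases hex : ∀ v ∈ V, v * v = 1
  · -- exponent 2
    have hp : IsPGroup 2 V := fun g => ⟨1, by
      rw [pow_one, sq]
      exact Subtype.ext (hex g g.2)⟩
    obtain ⟨a, ha⟩ := IsPGroup.iff_card.1 hp
    have ha1 : 1 ≤ a := by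
      rcases Nat.eq_zero_or_pos a with h | h
      · rw [h, pow_zero] at ha
        omega
      · exact h
    have hak : a ≤ Nat.log 2 k := Nat.le_log_of_pow_le (by norm_num) (ha ▸ hcard)
    have hLV : L (C * (a - 1)) ≤ V := by
      refine le_trans ?_ hDV
      intro x hx
      rw [Subgroup.mem_centralizer_iff]
      intro v hv
      by_cases hv1 : v = 1
      · rw [hv1, one_mul, mul_one]
      have hidx : (Subgroup.centralizer {v}).index ≤ Nat.card V - 1 := by
        rw [← hcardT]
        refine index_le_ncard _ (fun g => g * v * g⁻¹) _ (Set.toFinite _) (hconj v hv hv1) ?_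
        intro g h hgh
        rw [Subgroup.mem_centralizer_singleton_iff]
        have hgh' : g * v * g⁻¹ = h * v * h⁻¹ := hgh
        refine Eq.symm ?_
        calc v * (g⁻¹ * h) = g⁻¹ * (g * v * g⁻¹) * h := by group
          _ = g⁻¹ * (h * v * h⁻¹) * h := by rw [hgh']
          _ = g⁻¹ * h * v := by group
      have hlog : Nat.log 2 (Subgroup.centralizer {v}).index ≤ a - 1 := by
        have h1 : Nat.log 2 (Subgroup.centralizer {v}).index < a := by
          apply Nat.log_lt_of_lt_pow Subgroup.index_ne_zero_of_finite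
          rw [← ha]
          omega
        omega
      have h2 := sl.ih (Subgroup.centralizer {v}) (by omega)
      have h3 := h2 (sl.anti (Nat.mul_le_mul_left C hlog) hx)
      rw [Subgroup.mem_centralizer_singleton_iff] at h3
      exact h3.symm
    have h4 : L (C * (a - 1) + 1) ≤ ⊥ := by
      rw [← hcomm]
      exact (sl.comm _).trans (Subgroup.commutator_mono hLV hLV)
    rw [eq_bot_iff]
    refine (sl.anti ?_).trans h4
    calc C * (a - 1) + 1 ≤ C * (a - 1) + C := by omega
      _ = C * a := by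
        obtain ⟨b, rfl⟩ : ∃ b, a = b + 1 := ⟨a - 1, by omega⟩
        rw [Nat.add_sub_cancel, mul_add_one]
      _ ≤ C * Nat.log 2 k := Nat.mul_le_mul_left C hak
  · -- no involution
    let V2 : Subgroup Q :=
      { carrier := {v | v ∈ V ∧ v * v = 1}
        mul_mem' := by
          rintro a b ⟨ha, ha'⟩ ⟨hb, hb'⟩
          refine ⟨V.mul_mem ha hb, ?_⟩
          calc a * b * (a * b) = a * (b * a) * b := by group
            _ = a * (a * b) * b := by rw [hab b hb a ha]
            _ = (a * a) * (b * b) := by group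
            _ = 1 := by rw [ha', hb', one_mul]
        one_mem' := ⟨V.one_mem, one_mul 1⟩
        inv_mem' := by
          rintro a ⟨ha, ha'⟩
          refine ⟨V.inv_mem ha, ?_⟩
          rw [← mul_inv_rev, ha', inv_one] }
    have hV2n : V2.Normal := ⟨by
      rintro v ⟨hv, hv'⟩ g
      refine ⟨hVn.conj_mem v hv g, ?_⟩
      calc g * v * g⁻¹ * (g * v * g⁻¹) = g * (v * v) * g⁻¹ := by group
        _ = 1 := by rw [hv']; group⟩
    have hV2 : V2 = ⊥ := by
      rcases hVmin V2 hV2n (fun v hv => hv.1) with h | h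
      · exact h
      · exfalso
        apply hex
        intro v hv
        rw [← h] at hv
        exact hv.2
    have hinvol : ∀ v ∈ V, v * v = 1 → v = 1 := by
      intro v hv hvv
      have : v ∈ V2 := ⟨hv, hvv⟩
      rwa [hV2, Subgroup.mem_bot] at this
    have hk1 : 1 ≤ Nat.log 2 k := Nat.le_log_of_pow_le (by norm_num) (by omega)
    have hstab : ∀ v ∈ V, L (C * (Nat.log 2 k - 1)) ≤ pairStab v := by
      intro v hv
      by_cases hv1 : v = 1
      · intro x _
        rw [hv1]
        left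
        group
      have hidx : 2 * (pairStab v).index ≤ Nat.card V - 1 := by
        rw [← hcardT]
        refine two_index_le_ncard _ (fun g => g * v * g⁻¹) _ (hconj v hv hv1) ?_ ?_ ?_
        · intro g
          have h1 := hconj v hv hv1 g
          refine ⟨V.inv_mem h1.1, fun h => h1.2 ?_⟩
          rw [Set.mem_singleton_iff] at h ⊢
          exact inv_eq_one.1 h
        · intro g h
          have h1 := hconj v hv hv1 g
          apply h1.2
          rw [Set.mem_singleton_iff]
          refine hinvol _ h1.1 ?_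
          have h' : g * v * g⁻¹ = (g * v * g⁻¹)⁻¹ := h
          calc g * v * g⁻¹ * (g * v * g⁻¹) = (g * v * g⁻¹)⁻¹ * (g * v * g⁻¹) := by rw [← h']
            _ = 1 := by group
        · intro g h hgh
          rw [mem_pairStab]
          have hgh' : g * v * g⁻¹ = h * v * h⁻¹ ∨ g * v * g⁻¹ = (h * v * h⁻¹)⁻¹ := hgh
          have e : g⁻¹ * h * v * (g⁻¹ * h)⁻¹ = g⁻¹ * (h * v * h⁻¹) * g := by group
          rw [e]
          rcases hgh' with h1 | h1
          · left
            rw [← h1]
            group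
          · right
            rw [← inv_inv (h * v * h⁻¹), ← h1]
            group
      have hi0 : (pairStab v).index ≠ 0 := Subgroup.index_ne_zero_of_finite
      have hlog := log_half hi0 (show 2 * (pairStab v).index ≤ k by omega)
      have h2 := sl.ih (pairStab v) (by omega)
      exact (sl.anti (Nat.mul_le_mul_left C (by omega))).trans h2
    have hLV : L (C * (Nat.log 2 k - 1) + 1) ≤ V := by
      refine le_trans ?_ hDV
      refine (sl.comm _).trans ?_
      rw [Subgroup.commutator_le]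
      intro x hx y hy
      rw [Subgroup.mem_centralizer_iff]
      intro v hv
      have h1 := pairStab_comm (hstab v hv hx) (hstab v hv hy)
      calc v * ⁅x, y⁆ = (⁅x, y⁆ * v * ⁅x, y⁆⁻¹) * ⁅x, y⁆ := by rw [h1]
        _ = ⁅x, y⁆ * v := by group
    have h4 : L (C * (Nat.log 2 k - 1) + 1 + 1) ≤ ⊥ := by
      rw [← hcomm]
      exact (sl.comm _).trans (Subgroup.commutator_mono hLV hLV)
    rw [eq_bot_iff]
    refine (sl.anti ?_).trans h4
    obtain ⟨b, hb⟩ : ∃ b, Nat.log 2 k = b + 1 := ⟨Nat.log 2 k - 1, by omega⟩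
    rw [hb, Nat.add_sub_cancel, mul_add_one]
    omega

end struct

end Pool.Agent.Helper39.BC
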