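import Pool.Agent.Helper39.BC.PsiDefs

set_option autoImplicit false

/-!
The trivial bound for the series `PsiS` (project BC, MP_98e9ed_al).
-/

open scoped Pointwise commutatorElement

namespace Pool.Agent.Helper39.BC

open Pool.Agent.Helper94.BC

variable {G : Type} [Group G] [Finite G]

theorem exists_max_nor (H D : Subgroup G) (hD : Nor H D) (hDH : D ≤ H) (hne : D ≠ H) :
    ∃ L, D ≤ L ∧ L < H ∧ Nor H L ∧ ∀ L', L ≤ L' → L' ≤ H → Nor H L' → L' = L ∨ L' = H := by
  let S : Set (Subgroup G) := {L | D ≤ L ∧ L < H ∧ Nor H L}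
  have hS : S.Nonempty := ⟨D, le_rfl, lt_of_le_of_ne hDH hne, hD⟩
  obtain ⟨L, hL, hmax⟩ := S.toFinite.exists_maximal hS
  refine ⟨L, hL.1, hL.2.1, hL.2.2, fun L' h1 h2 h3 => ?_⟩
  by_cases h4 : L' = H
  · exact Or.inr h4
  · left
    exact le_antisymm (hmax ⟨hL.1.trans h1, lt_of_le_of_ne h2 h4, h3⟩ h1) h1

omit [Finite G] in
theorem psi_le_max (H L : Subgroup G) (hLH : L ≤ H) (hL : Nor H L)
    (hmax : ∀ L', L ≤ L' → L' ≤ H → Nor H L' → L' = L ∨ L' = H) : Psi H ≤ L := by
  by_cases h : ⁅H, H⁆ ≤ L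
  · exact (psi_le_comm H).trans h
  · exact psi_le_nm ⟨hLH, hL, h, hmax⟩

theorem psiS_triv (n : ℕ) (H D : Subgroup G) (hD : Nor H D) (hidx : D.relIndex H < 2 ^ (n + 1)) :
    PsiS n H ≤ D := by
  induction n generalizing H with
  | zero =>
    have h0 : D.relIndex H ≠ 0 := Subgroup.index_ne_zero_of_finite
    have h1 : D.relIndex H = 1 := by
      rw [zero_add, pow_one] at hidx
      omega
    exact Subgroup.relIndex_eq_one.1 h1
  | succ n ih =>
    by_cases hle : H ≤ D
    · exact (psiS_le _ _).trans hle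
    have hD' : Nor H (D ⊓ H) := nor_inf hD (nor_self H)
    obtain ⟨L, hL1, hL2, hL3, hL4⟩ := exists_max_nor H (D ⊓ H) hD' inf_le_right
      fun h => hle (h ▸ inf_le_left)
    have hpsi := psi_le_max H L hL2.le hL3 hL4
    refine ih (Psi H) (nor_mono (psi_le H) hD) ?_
    have h1 : D.relIndex (Psi H) ≤ D.relIndex L :=
      Subgroup.relIndex_le_of_le_right hpsi Subgroup.index_ne_zero_of_finite
    have h2 : D.relIndex L = (D ⊓ H).relIndex L := by
      rw [← Subgroup.inf_relIndex_right, ← Subgroup.inf_relIndex_right (D ⊓ H)]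
      congr 1
      rw [inf_assoc, inf_eq_right.2 hL2.le]
    have h3 := Subgroup.relIndex_mul_relIndex (D ⊓ H) L H hL1 hL2.le
    rw [Subgroup.inf_relIndex_right] at h3
    have h4 : 2 ≤ L.relIndex H := by
      have h5 : L.relIndex H ≠ 0 := Subgroup.index_ne_zero_of_finite
      have h6 : L.relIndex H ≠ 1 := fun h => hL2.not_ge (Subgroup.relIndex_eq_one.1 h)
      omega
    have h7 : (D ⊓ H).relIndex L * 2 ≤ D.relIndex H := by
      rw [← h3]
      exact Nat.mul_le_mul_left _ h4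
    rw [pow_succ] at hidx
    omega

theorem psiS_core (Y : Subgroup G) (n : ℕ) (h : Y.index.factorial < 2 ^ (n + 1)) :
    PsiS n ⊤ ≤ Y := by
  refine (psiS_triv n ⊤ Y.normalCore (nor_of_normal ⊤ inferInstance) ?_).trans Y.normalCore_le
  rw [Subgroup.relIndex_top_right]
  refine lt_of_le_of_lt (Nat.le_of_dvd (Nat.factorial_pos _) ?_) h
  rw [Subgroup.normalCore_eq_ker, Subgroup.index_ker, Subgroup.index_eq_card, ← Nat.card_perm]
  exact Subgroup.card_subgroup_dvd_card _

end Pool.Agent.Helper39.BC
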